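import Pool.Agent.Q130.HE.Iter

/-! # Energies of families of sets -/

set_option autoImplicit false

namespace Pool.Agent.Q130.HE

open Finset H112
open scoped Pointwise

variable {G : Type*} [AddCommGroup G]

/-- the square of the `ℓ²`-norm -/
noncomputable def nn (f : AddMonoidAlgebra ℝ G) : ℝ := (f * refl f).coeff 0

theorem inner_eq (f g : AddMonoidAlgebra ℝ G) :
    (f * refl g).coeff 0 = ∑ x ∈ f.coeff.support, f.coeff x * g.coeff x := by
  rw [H112.coeff_mul_apply, Finsupp.sum]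
  apply sum_congr rfl
  intro x _
  rw [refl_apply, zero_sub, neg_neg]

theorem nn_eq (f : AddMonoidAlgebra ℝ G) : nn f = ∑ x ∈ f.coeff.support, f.coeff x ^ 2 := by
  unfold nn
  rw [inner_eq]
  apply sum_congr rfl
  intro x _
  rw [sq]

theorem nn_nonneg (f : AddMonoidAlgebra ℝ G) : 0 ≤ nn f := by
  rw [nn_eq]
  exact sum_nonneg fun x _ => sq_nonneg _

theorem sum_sq_le_nn (g : AddMonoidAlgebra ℝ G) (S : Finset G) :
    ∑ x ∈ S, g.coeff x ^ 2 ≤ nn g := by
  classical
  rw [nn_eq]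
  have h : ∑ x ∈ g.coeff.support, g.coeff x ^ 2 =
      ∑ x ∈ S ∪ g.coeff.support, g.coeff x ^ 2 := by
    apply sum_subset subset_union_right
    intro x _ hx
    rw [Finsupp.notMem_support_iff] at hx
    rw [hx]
    simp
  rw [h]
  exact sum_le_sum_of_subset_of_nonneg subset_union_left fun x _ _ => sq_nonneg _

theorem inner_sq_le (f g : AddMonoidAlgebra ℝ G) :
    ((f * refl g).coeff 0) ^ 2 ≤ nn f * nn g := by
  rw [inner_eq]
  refine (sum_mul_sq_le_sq_mul_sq _ _ _).trans ?_
  rw [← nn_eq]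
  exact mul_le_mul_of_nonneg_left (sum_sq_le_nn g _) (nn_nonneg f)

theorem nn_pos {f : AddMonoidAlgebra ℝ G} (hf : Law f) : 0 < nn f := by
  rw [nn_eq]
  by_contra hcon
  have h2 : ∀ x ∈ f.coeff.support, f.coeff x ^ 2 = 0 := by
    have h3 : ∑ x ∈ f.coeff.support, f.coeff x ^ 2 = 0 :=
      le_antisymm (not_lt.1 hcon) (sum_nonneg fun x _ => sq_nonneg _)
    exact (sum_eq_zero_iff_of_nonneg fun x _ => sq_nonneg _).1 h3
  have h3 : ∑ x ∈ f.coeff.support, f.coeff x = 0 := sum_eq_zero fun x hx => by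
    have := h2 x hx
    exact pow_eq_zero_iff (two_ne_zero) |>.1 this
  have h4 := hf.2
  rw [Finsupp.sum] at h4
  rw [h4] at h3
  exact one_ne_zero h3

theorem nn_mul_le {p f : AddMonoidAlgebra ℝ G} (hp : Law p) : nn (p * f) ≤ nn f := by
  classical
  have hw : ∀ x, 0 ≤ p.coeff x := hp.1
  have h1 : ∑ x ∈ p.coeff.support, p.coeff x = 1 := hp.2
  have h2 : ∀ s, (p * f).coeff s ^ 2 ≤
      ∑ x ∈ p.coeff.support, p.coeff x * f.coeff (s - x) ^ 2 := by
    intro s
    have h3 := sum_mul_sq_le_sq_mul_sq p.coeff.support (fun x => √(p.coeff x))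
      (fun x => √(p.coeff x) * f.coeff (s - x))
    have h4 : ∑ x ∈ p.coeff.support, √(p.coeff x) * (√(p.coeff x) * f.coeff (s - x)) =
        (p * f).coeff s := by
      rw [H112.coeff_mul_apply, Finsupp.sum]
      apply sum_congr rfl
      intro x _
      rw [← mul_assoc, Real.mul_self_sqrt (hw x)]
    have h5 : ∑ x ∈ p.coeff.support, √(p.coeff x) ^ 2 = 1 := by
      rw [← h1]
      apply sum_congr rfl
      intro x _
      exact Real.sq_sqrt (hw x)
    have h6 : ∑ x ∈ p.coeff.support, (√(p.coeff x) * f.coeff (s - x)) ^ 2 =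
        ∑ x ∈ p.coeff.support, p.coeff x * f.coeff (s - x) ^ 2 := by
      apply sum_congr rfl
      intro x _
      rw [mul_pow, Real.sq_sqrt (hw x)]
    rw [h4, h5, h6, one_mul] at h3
    exact h3
  rw [nn_eq (p * f)]
  calc ∑ s ∈ (p * f).coeff.support, (p * f).coeff s ^ 2
      ≤ ∑ s ∈ (p * f).coeff.support, ∑ x ∈ p.coeff.support, p.coeff x * f.coeff (s - x) ^ 2 :=
        sum_le_sum fun s _ => h2 s
    _ = ∑ x ∈ p.coeff.support, ∑ s ∈ (p * f).coeff.support, p.coeff x * f.coeff (s - x) ^ 2 :=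
        sum_comm
    _ ≤ ∑ x ∈ p.coeff.support, p.coeff x * nn f := by
        apply sum_le_sum
        intro x _
        rw [← mul_sum]
        apply mul_le_mul_of_nonneg_left _ (hw x)
        rw [nn_eq]
        exact sum_shift_le f.coeff.support _ (fun y => f.coeff y ^ 2) (fun y => sq_nonneg _)
          (fun y hy => by
            rw [Finsupp.notMem_support_iff] at hy
            simp [hy]) x
    _ = nn f := by rw [← sum_mul, h1, one_mul]

theorem logconv (p q : AddMonoidAlgebra ℝ G) (n : ℕ) :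
    nn (p * q ^ (n + 1)) ^ 2 ≤ nn (p * q ^ n) * nn (p * q ^ (n + 2)) := by
  have h := inner_sq_le (p * q ^ n) (p * q ^ (n + 1) * refl q)
  have e1 : p * q ^ n * refl (p * q ^ (n + 1) * refl q) =
      p * q ^ (n + 1) * refl (p * q ^ (n + 1)) := by
    rw [refl_mul (p * q ^ (n + 1)) (refl q), refl_refl]
    ring
  have e2 : nn (p * q ^ (n + 1) * refl q) = nn (p * q ^ (n + 2)) := by
    unfold nn
    congr 2
    rw [refl_mul (p * q ^ (n + 1)) (refl q), refl_refl, refl_mul p, refl_mul p, refl_pow, refl_pow]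
    ring
  rw [e1, e2] at h
  exact h

theorem iterate {p q : AddMonoidAlgebra ℝ G} (hp : Law p) (hq : Law q) {α : ℝ} (hα : 0 < α)
    (h : nn p ≤ α * nn (p * q)) (n : ℕ) : nn p ≤ α ^ n * nn (p * q ^ n) := by
  have h1 : ∀ n, nn (p * q ^ n) ≤ α * nn (p * q ^ (n + 1)) := by
    intro n
    induction n with
    | zero => simpa using h
    | succ n ih =>
      have h2 := logconv p q n
      have h3 := nn_pos (hp.mul (hq.pow (n + 1)))
      have h4 : nn (p * q ^ (n + 1)) * nn (p * q ^ (n + 1)) ≤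
          nn (p * q ^ (n + 1)) * (α * nn (p * q ^ (n + 1 + 1))) := by
        calc nn (p * q ^ (n + 1)) * nn (p * q ^ (n + 1)) = nn (p * q ^ (n + 1)) ^ 2 := (sq _).symm
          _ ≤ nn (p * q ^ n) * nn (p * q ^ (n + 2)) := h2
          _ ≤ (α * nn (p * q ^ (n + 1))) * nn (p * q ^ (n + 2)) :=
            mul_le_mul_of_nonneg_right ih (nn_nonneg _)
          _ = _ := by ring
      exact le_of_mul_le_mul_left h4 h3
  induction n with
  | zero => simp
  | succ n ih =>
    calc nn p ≤ α ^ n * nn (p * q ^ n) := ih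
      _ ≤ α ^ n * (α * nn (p * q ^ (n + 1))) := by
        have := h1 n
        gcongr
      _ = _ := by ring

variable [DecidableEq G]

/-- the number of representations as a sum of elements of the sets of a family -/
def repsF {m : ℕ} (A : Fin m → Finset G) (x : G) : ℕ :=
  ((Fintype.piFinset A).filter fun a => ∑ i, a i = x).card

theorem repsF_zero (A : Fin 0 → Finset G) (x : G) : repsF A x = if x = 0 then 1 else 0 := by
  unfold repsF
  split_ifs with h
  · subst h
    simp
  · rw [card_eq_zero, filter_eq_empty_iff]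
    intro a _ h2
    apply h
    rw [← h2]
    simp

theorem repsF_succ {m : ℕ} (A : Fin (m + 1) → Finset G) (x : G) :
    repsF A x = ∑ a ∈ A 0, repsF (fun i => A (Fin.succ i)) (x - a) := by
  unfold repsF
  rw [← card_sigma]
  apply card_nbij' (fun f => (⟨f 0, Fin.tail f⟩ : Σ _ : G, Fin m → G))
    (fun p => Fin.cons p.1 p.2)
  · intro f hf
    simp only [coe_filter, Set.mem_ofPred_eq, Fintype.mem_piFinset, coe_sigma, Set.mem_sigma_iff,
      mem_coe] at hf ⊢
    refine ⟨hf.1 0, fun i => hf.1 i.succ, ?_⟩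
    rw [← hf.2, Fin.sum_univ_succ]
    simp only [Fin.tail]
    abel
  · rintro ⟨a, g⟩ hf
    simp only [coe_filter, Set.mem_ofPred_eq, Fintype.mem_piFinset, coe_sigma, Set.mem_sigma_iff,
      mem_coe] at hf ⊢
    refine ⟨?_, ?_⟩
    · intro i
      refine Fin.cases ?_ ?_ i
      · exact hf.1
      · intro j
        exact hf.2.1 j
    · rw [Fin.sum_univ_succ]
      simp only [Fin.cons_zero, Fin.cons_succ]
      rw [hf.2.2]
      abel
  · intro f _
    exact Fin.cons_self_tail f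
  · rintro ⟨a, g⟩ _
    simp

theorem U_mul_apply (A : Finset G) (f : AddMonoidAlgebra ℝ G) (x : G) :
    (U A * f).coeff x = ∑ a ∈ A, (A.card : ℝ)⁻¹ * f.coeff (x - a) := by
  rw [H112.coeff_mul_apply, Finsupp.sum]
  have hsub : (U A).coeff.support ⊆ A := by
    intro y hy
    rw [Finsupp.mem_support_iff, U_apply] at hy
    by_contra h
    exact hy (if_neg h)
  rw [sum_subset hsub]
  · apply sum_congr rfl
    intro a ha
    rw [U_apply, if_pos ha]
  · intro a _ ha
    rw [Finsupp.notMem_support_iff] at ha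
    rw [ha, zero_mul]

theorem prod_apply {m : ℕ} (A : Fin m → Finset G) (x : G) :
    (∏ i, U (A i)).coeff x = repsF A x / ∏ i, ((A i).card : ℝ) := by
  induction m generalizing x with
  | zero =>
    rw [repsF_zero]
    simp only [univ_eq_empty, prod_empty, div_one, AddMonoidAlgebra.one_def]
    simp only [AddMonoidAlgebra.coeff_single, Finsupp.single_apply, eq_comm]
    split_ifs <;> simp
  | succ m ih =>
    rw [Fin.prod_univ_succ, U_mul_apply, repsF_succ, Nat.cast_sum, sum_div, Fin.prod_univ_succ]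
    apply sum_congr rfl
    intro a _
    rw [ih (fun i => A (Fin.succ i)), div_mul_eq_div_div]
    ring

/-- the number of pairs of tuples with equal sums -/
def energyF {m : ℕ} (A : Fin m → Finset G) : ℕ :=
  ((Fintype.piFinset A ×ˢ Fintype.piFinset A).filter fun p => ∑ i, p.1 i = ∑ i, p.2 i).card

theorem energyF_eq {m : ℕ} (A : Fin m → Finset G) (S : Finset G)
    (hS : (Fintype.piFinset A).image (fun a => ∑ i, a i) ⊆ S) :
    energyF A = ∑ s ∈ S, repsF A s ^ 2 := by
  unfold energyF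
  have h1 := card_eq_sum_card_fiberwise (f := fun p : (Fin m → G) × (Fin m → G) => ∑ i, p.1 i)
    (s := (Fintype.piFinset A ×ˢ Fintype.piFinset A).filter
    fun p => ∑ i, p.1 i = ∑ i, p.2 i) (t := S) (fun p hp => by
      rw [mem_coe, mem_filter, mem_product] at hp
      exact hS (mem_image_of_mem _ hp.1.1))
  rw [h1]
  apply sum_congr rfl
  intro s _
  unfold repsF
  rw [sq, ← card_product]
  congr 1
  ext p
  simp only [mem_filter, mem_product]
  constructor
  · rintro ⟨⟨⟨h1, h2⟩, h3⟩, h4⟩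
    exact ⟨⟨h1, h4⟩, h2, by rw [← h3, h4]⟩
  · rintro ⟨⟨h1, h2⟩, h3, h4⟩
    exact ⟨⟨⟨h1, h3⟩, by rw [h2, h4]⟩, h2⟩

theorem nn_energyF {m : ℕ} (A : Fin m → Finset G) (hA : ∀ i, (A i).Nonempty) :
    nn (∏ i, U (A i)) * (∏ i, ((A i).card : ℝ)) ^ 2 = energyF A := by
  have hc : (∏ i, ((A i).card : ℝ)) ≠ 0 := by
    apply prod_ne_zero_iff.2
    intro i _
    exact_mod_cast (hA i).card_pos.ne'
  obtain ⟨S, hS⟩ : ∃ S, S = (Fintype.piFinset A).image (fun a => ∑ i, a i) ∪
    (∏ i, U (A i)).coeff.support := ⟨_, rfl⟩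
  rw [energyF_eq A S (by rw [hS]; exact subset_union_left), nn_eq]
  have h1 : ∑ x ∈ (∏ i, U (A i)).coeff.support, (∏ i, U (A i)).coeff x ^ 2 =
      ∑ x ∈ S, (∏ i, U (A i)).coeff x ^ 2 := by
    apply sum_subset (by rw [hS]; exact subset_union_right)
    intro x _ hx
    rw [Finsupp.notMem_support_iff] at hx
    rw [hx]
    simp
  rw [h1, sum_mul]
  push_cast
  apply sum_congr rfl
  intro s _
  rw [prod_apply, div_pow]
  field_simp

omit [DecidableEq G] in
theorem nn_U_pow (A : Finset G) (m : ℕ) : nn ((U A) ^ m) = cp A m := nn_eq _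

/-- a family with a large energy contains a set with a large energy -/
theorem exists_good_energy {m : ℕ} (hm : 2 ≤ m) (A : Fin m → Finset G)
    (hA : ∀ i, (A i).Nonempty) {K : ℝ} (hK : 1 ≤ K)
    (h : ∀ i, (∏ j, ((A j).card : ℝ)) ^ 2 ≤ K * ((A i).card * energyF A)) :
    ∃ i, ((A i).card : ℝ) ^ (2 * m) ≤ K ^ 3 * ((A i).card * energy m (A i)) := by
  classical
  have hK0 : 0 < K := by linarith
  have hPi : 0 < ∏ j, ((A j).card : ℝ) := prod_pos fun i _ => by exact_mod_cast (hA i).card_pos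
  obtain ⟨A', hA'⟩ : ∃ A' : ℕ → Finset G, A' = fun i => if h : i < m then A ⟨i, h⟩ else 0 := ⟨_, rfl⟩
  have hA'i : ∀ i : Fin m, A' i = A i := by
    intro i
    rw [hA']
    simp
  have hA'ne : ∀ i, (A' i).Nonempty := by
    intro i
    rw [hA']
    simp only
    split_ifs
    · exact hA _
    · exact zero_nonempty
  obtain ⟨S, hS⟩ : ∃ S : ℕ → AddMonoidAlgebra ℝ G, S = fun k => ∏ i ∈ range k, U (A' i) := ⟨_, rfl⟩
  have hprod : ∏ j, U (A j) = S m := by
    rw [hS]
    simp only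
    rw [← Fin.prod_univ_eq_prod_range]
    exact prod_congr rfl fun i _ => by rw [hA'i]
  have hSsucc : ∀ k, S (k + 1) = S k * U (A' k) := by
    intro k
    rw [hS]
    exact prod_range_succ _ _
  have hSlaw : ∀ k, Law (S k) := by
    intro k
    induction k with
    | zero =>
      have : S 0 = 1 := by rw [hS]; exact prod_range_zero _
      rw [this]
      exact Law.one
    | succ k ih =>
      rw [hSsucc]
      exact ih.mul (law_U (hA'ne k))
  have hSanti : Antitone fun k => nn (S k) := by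
    apply antitone_nat_of_succ_le
    intro k
    rw [hSsucc, mul_comm]
    exact nn_mul_le (law_U (hA'ne k))
  have hSm : ∀ i, 1 ≤ K * ((A i).card * nn (S m)) := by
    intro i
    have h1 := h i
    rw [← nn_energyF A hA, hprod] at h1
    have h2 : (∏ j, ((A j).card : ℝ)) ^ 2 * 1 ≤
        (∏ j, ((A j).card : ℝ)) ^ 2 * (K * ((A i).card * nn (S m))) := by
      calc (∏ j, ((A j).card : ℝ)) ^ 2 * 1 = (∏ j, ((A j).card : ℝ)) ^ 2 := mul_one _
        _ ≤ _ := h1
        _ = _ := by ring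
    exact le_of_mul_le_mul_left h2 (pow_pos hPi 2)
  obtain ⟨α, hα⟩ : ∃ α, α = K ^ (((m - 1 : ℕ) : ℝ)⁻¹) := ⟨_, rfl⟩
  have hα1 : 1 ≤ α := by rw [hα]; exact Real.one_le_rpow hK (by positivity)
  have hα0 : 0 < α := by linarith
  have hαm : α ^ (m - 1) = K := by rw [hα, Real.rpow_inv_natCast_pow hK0.le (by omega)]
  obtain ⟨k, hk1, hkm, hk⟩ : ∃ k, 1 ≤ k ∧ k < m ∧ nn (S k) ≤ α * nn (S (k + 1)) := by
    by_contra hcon
    push Not at hcon
    have h1 : ∀ k, 1 ≤ k → k < m → α ^ k * nn (S (k + 1)) < nn (S 1) := by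
      intro k
      induction k with
      | zero => intro h; omega
      | succ k ih =>
        intro _ hk
        have h2 := hcon (k + 1) (by omega) hk
        rcases Nat.eq_zero_or_pos k with h0 | h0
        · subst h0
          simpa using h2
        · have h3 := ih h0 (by omega)
          calc α ^ (k + 1) * nn (S (k + 1 + 1)) = α ^ k * (α * nn (S (k + 1 + 1))) := by ring
            _ < α ^ k * nn (S (k + 1)) := mul_lt_mul_of_pos_left h2 (by positivity)
            _ < _ := h3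
    have h2 := h1 (m - 1) (by omega) (by omega)
    rw [hαm, show m - 1 + 1 = m by omega] at h2
    have h3 := hSm ⟨0, by omega⟩
    have h4 : nn (S 1) = ((A ⟨0, by omega⟩).card : ℝ)⁻¹ := by
      have h5 : S 0 = 1 := by rw [hS]; exact prod_range_zero _
      have h6 : A' 0 = A ⟨0, by omega⟩ := hA'i ⟨0, by omega⟩
      have h7 : S 1 = (U (A ⟨0, by omega⟩)) ^ 1 := by
        rw [show (1 : ℕ) = 0 + 1 by rfl, hSsucc, h5, h6, one_mul, zero_add, pow_one]
      rw [h7, nn_U_pow, cp_one (hA _)]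
    rw [h4] at h2
    have hc0 : (0 : ℝ) < (A ⟨0, by omega⟩).card := by exact_mod_cast (hA _).card_pos
    have h8 : K * ((A ⟨0, by omega⟩).card * nn (S m)) < 1 := by
      calc K * ((A ⟨0, by omega⟩).card * nn (S m))
          = (A ⟨0, by omega⟩).card * (K * nn (S m)) := by ring
        _ < (A ⟨0, by omega⟩).card * ((A ⟨0, by omega⟩).card : ℝ)⁻¹ :=
          mul_lt_mul_of_pos_left h2 hc0
        _ = 1 := mul_inv_cancel₀ hc0.ne'
    linarith
  refine ⟨⟨k, hkm⟩, ?_⟩
  have h3 : A' k = A ⟨k, hkm⟩ := hA'i ⟨k, hkm⟩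
  rw [hSsucc, h3] at hk
  have h5 := iterate (hSlaw k) (law_U (hA ⟨k, hkm⟩)) hα0 hk m
  have h6 : nn (S k * U (A ⟨k, hkm⟩) ^ m) ≤ cp (A ⟨k, hkm⟩) m := by
    rw [← nn_U_pow]
    exact nn_mul_le (hSlaw k)
  have h7 : nn (S m) ≤ nn (S k) := hSanti hkm.le
  have h4 : α ^ m ≤ K ^ 2 := by
    calc α ^ m = α ^ (m - 1) * α := by rw [← pow_succ, show m - 1 + 1 = m by omega]
      _ = K * α := by rw [hαm]
      _ ≤ K * K := by
        apply mul_le_mul_of_nonneg_left _ hK0.le
        calc α = α ^ 1 := (pow_one _).symm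
          _ ≤ α ^ (m - 1) := pow_le_pow_right₀ hα1 (by omega)
          _ = K := hαm
      _ = K ^ 2 := by ring
  have hcp0 : 0 ≤ cp (A ⟨k, hkm⟩) m := (cp_pos (hA _) m).le
  have h8 : 1 ≤ K ^ 3 * ((A ⟨k, hkm⟩).card * cp (A ⟨k, hkm⟩) m) := by
    calc 1 ≤ K * ((A ⟨k, hkm⟩).card * nn (S m)) := hSm _
      _ ≤ K * ((A ⟨k, hkm⟩).card * (K ^ 2 * cp (A ⟨k, hkm⟩) m)) := by
        apply mul_le_mul_of_nonneg_left _ hK0.le
        apply mul_le_mul_of_nonneg_left _ (by positivity)
        calc nn (S m) ≤ nn (S k) := h7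
          _ ≤ α ^ m * nn (S k * U (A ⟨k, hkm⟩) ^ m) := h5
          _ ≤ α ^ m * cp (A ⟨k, hkm⟩) m := mul_le_mul_of_nonneg_left h6 (by positivity)
          _ ≤ K ^ 2 * cp (A ⟨k, hkm⟩) m := mul_le_mul_of_nonneg_right h4 hcp0
      _ = _ := by ring
  rw [← cp_energy (hA ⟨k, hkm⟩) m]
  calc ((A ⟨k, hkm⟩).card : ℝ) ^ (2 * m) = ((A ⟨k, hkm⟩).card : ℝ) ^ (2 * m) * 1 := (mul_one _).symm
    _ ≤ ((A ⟨k, hkm⟩).card : ℝ) ^ (2 * m) *
        (K ^ 3 * ((A ⟨k, hkm⟩).card * cp (A ⟨k, hkm⟩) m)) := by gcongr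
    _ = _ := by ring

omit [DecidableEq G] in
/-- energies of linear images -/
theorem energyF_image {G' : Type*} [AddCommGroup G'] [DecidableEq G'] {m : ℕ}
    (φ : Fin m → G →+ G') (hφ : ∀ i, Function.Injective (φ i)) (A : Finset G) :
    energyF (fun i => A.image (φ i)) =
      (((Fintype.piFinset fun _ : Fin m => A) ×ˢ (Fintype.piFinset fun _ : Fin m => A)).filter
        fun p => ∑ i, φ i (p.1 i) = ∑ i, φ i (p.2 i)).card := by
  symm
  unfold energyF
  have hinj : Function.Injective fun a : Fin m → G => fun i => φ i (a i) := by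
    intro a b h
    funext i
    exact hφ i (congrFun h i)
  apply card_nbij (fun p => (fun i => φ i (p.1 i), fun i => φ i (p.2 i)))
  · intro p hp
    rw [mem_coe, mem_filter, mem_product] at hp ⊢
    simp only [Fintype.mem_piFinset] at hp ⊢
    exact ⟨⟨fun i => mem_image_of_mem _ (hp.1.1 i), fun i => mem_image_of_mem _ (hp.1.2 i)⟩, hp.2⟩
  · rintro ⟨a, b⟩ _ ⟨a', b'⟩ _ h
    simp only [Prod.mk.injEq] at h
    rw [hinj h.1, hinj h.2]
  · rintro ⟨a, b⟩ hp
    rw [mem_coe, mem_filter, mem_product] at hp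
    simp only [Fintype.mem_piFinset, mem_image] at hp
    obtain ⟨⟨h1, h2⟩, h3⟩ := hp
    choose a' ha' hea using h1
    choose b' hb' heb using h2
    refine ⟨(a', b'), ?_, ?_⟩
    · rw [mem_coe, mem_filter, mem_product]
      simp only [Fintype.mem_piFinset]
      refine ⟨⟨ha', hb'⟩, ?_⟩
      simp only [hea, heb]
      exact h3
    · simp only [hea, heb]

end Pool.Agent.Q130.HE
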