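import Pool.Agent.Q130.HE.Num
import Pool.Agent.Q130.HE.Lin

/-! # Energies, sums of `m` sets, sums of `m` linear images -/

set_option autoImplicit false

namespace Pool.Agent.Q130.HE

open Finset
open scoped Pointwise
open Pool.Agent.TH198.DC (SB LP rv)

variable {G : Type*} [AddCommGroup G] [DecidableEq G]

/-- the exponent -/
noncomputable def ex (K : ℝ) (m : ℕ) : ℝ :=
  10 ^ 9 * (1 + Real.log (1 + Real.log (2 * K)) / Real.log m)

/-- large energy gives a large intersection -/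
theorem part1a (htf : ∀ (n : ℕ) (x : G), n ≠ 0 → n • x = 0 → x = 0) {K : ℝ} (hK : 1 ≤ K)
    {m : ℕ} (hm : 2 ≤ m) {A : Finset G} (hA : A.Nonempty)
    (hE : (A.card : ℝ) ^ (2 * m) ≤ K ^ 3 * (A.card * energy m A)) :
    ∃ (d : ℕ) (B : Set (Fin d → ℝ)) (ψ : (Fin d → ℤ) →+ G) (t : G),
      (d : ℝ) ≤ 330000 * (1 + Real.log K / Real.log m) ∧ SB B ∧ (LP B).ncard ≤ A.card ∧
      (A.card : ℝ) ≤ (2 * K) ^ ex K m *
        (({a | a ∈ A ∧ ∃ c ∈ LP B, a = t + ψ c} : Set G).ncard : ℝ) := by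
  have hK0 : 0 < K := by linarith
  have hK3 : 1 ≤ K ^ 3 := one_le_pow₀ hK
  obtain ⟨J, K', hJ, hK', hKJ, hJm, hnum⟩ := num hK3 hm
  obtain ⟨d, B, ψ, u, hd, hB, hvol, hbig⟩ := inter htf hA hK' hJ hKJ hJm hE
  obtain ⟨h1, h2⟩ := hnum d hd
  obtain ⟨h3, h4⟩ := cube hK hm
  refine ⟨d, B, ψ, u, h1.trans h4, hB, hvol, ?_⟩
  refine hbig.trans ?_
  apply mul_le_mul_of_nonneg_right _ (by positivity)
  have hnb : 0 ≤ nb (2 ^ 504 * K' ^ 160) := by
    unfold nb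
    have : 0 < K' := by linarith
    positivity
  have hQ0 : 0 ≤ 2 ^ 43 * K' ^ 14 * nb (2 ^ 504 * K' ^ 160) * (625 ^ d * (8 * K' * K ^ 3)) := by
    have : 0 < K' := by linarith
    positivity
  calc 2 ^ 43 * K' ^ 14 * nb (2 ^ 504 * K' ^ 160) * (625 ^ d * (8 * K' * K ^ 3))
      = 1 * (2 ^ 43 * K' ^ 14 * nb (2 ^ 504 * K' ^ 160) * (625 ^ d * (8 * K' * K ^ 3))) * 1 := by
        ring
    _ ≤ (K ^ 3) ^ 2 * (2 ^ 43 * K' ^ 14 * nb (2 ^ 504 * K' ^ 160) *
        (625 ^ d * (8 * K' * K ^ 3))) * 625 ^ d := by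
        have h3 : (1 : ℝ) ≤ (K ^ 3) ^ 2 := one_le_pow₀ hK3
        have h4 : (1 : ℝ) ≤ 625 ^ d := one_le_pow₀ (by norm_num)
        gcongr
    _ ≤ _ := h2
    _ ≤ (2 * K) ^ ex K m := h3

theorem part1 (htf : ∀ (n : ℕ) (x : G), n ≠ 0 → n • x = 0 → x = 0) {K : ℝ} (hK : 1 ≤ K)
    {m : ℕ} (hm : 2 ≤ m) {G' : Type*} [AddCommGroup G'] [DecidableEq G']
    (φ : Fin m → G →+ G') (hφ : ∀ i, Function.Injective (φ i)) {A : Finset G} (hA : A.Nonempty)
    (hE : (A.card : ℝ) ^ (2 * m - 1) ≤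
      K * ((((Fintype.piFinset fun _ : Fin m => A) ×ˢ (Fintype.piFinset fun _ : Fin m => A)).filter
        fun p => ∑ i, φ i (p.1 i) = ∑ i, φ i (p.2 i)).card : ℝ)) :
    ∃ (d : ℕ) (B : Set (Fin d → ℝ)) (ψ : (Fin d → ℤ) →+ G) (t : G),
      (d : ℝ) ≤ 330000 * (1 + Real.log K / Real.log m) ∧ SB B ∧ (LP B).ncard ≤ A.card ∧
      (A.card : ℝ) ≤ (2 * K) ^ ex K m *
        (({a | a ∈ A ∧ ∃ c ∈ LP B, a = t + ψ c} : Set G).ncard : ℝ) := by
  classical
  have hK0 : 0 < K := by linarith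
  have hc : ∀ i, (A.image (φ i)).card = A.card := fun i => card_image_of_injective _ (hφ i)
  rw [← energyF_image φ hφ A] at hE
  have hE' : ∀ i, (∏ j, ((A.image (φ j)).card : ℝ)) ^ 2 ≤
      K * ((A.image (φ i)).card * energyF (fun i => A.image (φ i))) := by
    intro i
    simp only [hc, prod_const, card_univ, Fintype.card_fin]
    calc ((A.card : ℝ) ^ m) ^ 2 = A.card * (A.card : ℝ) ^ (2 * m - 1) := by
          rw [← pow_succ', ← pow_mul]
          congr 1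
          omega
      _ ≤ A.card * (K * energyF (fun i => A.image (φ i))) := by gcongr
      _ = _ := by ring
  obtain ⟨i, hi⟩ := exists_good_energy hm (fun i => A.image (φ i)) (fun i => hA.image _) hK hE'
  have hen : energy m (A.image (φ i)) = energy m A := by
    have h1 := energyF_image (fun _ : Fin m => φ i) (fun _ => hφ i) A
    have h2 : energy m (A.image (φ i)) = energyF (fun _ : Fin m => A.image (φ i)) := rfl
    rw [h2, h1]
    unfold energy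
    congr 1
    ext p
    simp only [mem_filter, ← map_sum]
    constructor
    · rintro ⟨h3, h4⟩
      exact ⟨h3, hφ i h4⟩
    · rintro ⟨h3, h4⟩
      exact ⟨h3, by rw [h4]⟩
  rw [hen, hc i] at hi
  exact part1a htf hK hm hA hi

theorem sums_mono {A : Finset G} (hA : A.Nonempty) : Monotone fun m => (sums m A).card := by
  apply monotone_nat_of_le_succ
  intro n
  rw [sums_succ]
  exact card_le_card_add_right hA

theorem sums_two (A : Finset G) : sums 2 A = A + A := by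
  rw [sums_succ, sums_succ, sums_zero, zero_add]

/-- all conclusions for a set with a small `m`-fold sumset -/
theorem part0 (htf : ∀ (n : ℕ) (x : G), n ≠ 0 → n • x = 0 → x = 0) {K : ℝ} (hK : 1 ≤ K)
    {m : ℕ} (hm : 2 ≤ m) {A : Finset G} (hA : A.Nonempty)
    (hE : ((sums m A).card : ℝ) ≤ K ^ 3 * A.card) {N : ℕ} (hN : 1 ≤ N)
    (hAN : (A.card : ℝ) ≤ K * N) :
    ∃ (d : ℕ) (B : Set (Fin d → ℝ)) (ψ : (Fin d → ℤ) →+ G),
      (d : ℝ) ≤ 330000 * (1 + Real.log K / Real.log m) ∧ SB B ∧ (LP B).ncard ≤ N ∧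
      ∀ D : Finset G, ((D + A).card : ℝ) ≤ K ^ 3 * A.card → ∃ T : Finset G,
        (T.card : ℝ) ≤ (2 * K) ^ ex K m ∧ ∀ a ∈ D, ∃ t ∈ T, ∃ c ∈ LP B, a = t + ψ c := by
  have hK3 : 1 ≤ K ^ 3 := one_le_pow₀ hK
  have hKK3 : K ≤ K ^ 3 := by
    calc K = K ^ 1 := (pow_one K).symm
      _ ≤ K ^ 3 := pow_le_pow_right₀ hK (by norm_num)
  obtain ⟨J, K', hJ, hK', hKJ, hJm, hnum⟩ := num hK3 hm
  obtain ⟨d, B, ψ, hd, hB, hvol, hcov⟩ := cover_all htf hA hK' hJ hKJ hJm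
    (energy_of_sums hE) hK3 hN (hAN.trans (by gcongr))
  obtain ⟨h1, h2⟩ := hnum d hd
  obtain ⟨h3, h4⟩ := cube hK hm
  refine ⟨d, B, ψ, h1.trans h4, hB, hvol, fun D hD => ?_⟩
  obtain ⟨T, hT, hTc⟩ := hcov D hD
  exact ⟨T, (hT.trans h2).trans h3, hTc⟩

theorem part2 (htf : ∀ (n : ℕ) (x : G), n ≠ 0 → n • x = 0 → x = 0) {K : ℝ} (hK : 1 ≤ K)
    {m : ℕ} (hm : 2 ≤ m) (A : Fin m → Finset G) (hA : ∀ i, (A i).Nonempty)
    (h : ∀ i, ((∑ j, A j).card : ℝ) ≤ K * (A i).card) :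
    ∃ (d : ℕ) (B : Set (Fin d → ℝ)) (ψ : (Fin d → ℤ) →+ G),
      (d : ℝ) ≤ 330000 * (1 + Real.log K / Real.log m) ∧ SB B ∧
      (∀ i, (LP B).ncard ≤ (A i).card) ∧
      ∀ i, ∃ T : Finset G,
        (T.card : ℝ) ≤ (2 * K) ^ ex K m ∧ ∀ a ∈ A i, ∃ t ∈ T, ∃ c ∈ LP B, a = t + ψ c := by
  classical
  have hK0 : 0 < K := by linarith
  have hKK3 : K ≤ K ^ 3 := by
    calc K = K ^ 1 := (pow_one K).symm
      _ ≤ K ^ 3 := pow_le_pow_right₀ hK (by norm_num)
  obtain ⟨i₀, hi₀⟩ := exists_good hm A hA hK h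
  have : Nonempty (Fin m) := ⟨⟨0, by omega⟩⟩
  obtain ⟨i₁, -, hi₁⟩ := exists_min_image (univ : Finset (Fin m)) (fun i => (A i).card)
    univ_nonempty
  have hcard : ∀ i, (A i).card ≤ (∑ j, A j).card := by
    intro i
    have := card_sum_mono (s := {i}) (t := univ) (subset_univ _) A (fun i _ => hA i)
    rwa [sum_singleton] at this
  obtain ⟨d, B, ψ, hd, hB, hvol, hcov⟩ := part0 htf hK hm (hA i₀) hi₀
    (N := (A i₁).card) (hA i₁).card_pos (by
      refine le_trans ?_ (h i₁)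
      exact_mod_cast hcard i₀)
  refine ⟨d, B, ψ, hd, hB, fun i => hvol.trans (hi₁ i (mem_univ _)), fun i => ?_⟩
  apply hcov
  by_cases hi : i = i₀
  · subst hi
    refine le_trans ?_ hi₀
    rw [← sums_two]
    exact_mod_cast sums_mono (hA i) hm
  · have h1 : (A i + A i₀).card ≤ (∑ j, A j).card := by
      have := card_sum_mono (s := {i, i₀}) (t := univ) (subset_univ _) A (fun i _ => hA i)
      rwa [sum_pair hi] at this
    calc ((A i + A i₀).card : ℝ) ≤ (∑ j, A j).card := by exact_mod_cast h1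
      _ ≤ K * (A i₀).card := h i₀
      _ ≤ K ^ 3 * (A i₀).card := by gcongr

theorem sums_image {G' : Type*} [AddCommGroup G'] [DecidableEq G'] (φ : G →+ G') (A : Finset G)
    (m : ℕ) : sums m (A.image φ) = (sums m A).image φ := by
  induction m with
  | zero =>
    rw [sums_zero, sums_zero]
    simp
    rfl
  | succ m ih => rw [sums_succ, sums_succ, ih, image_add]

theorem part3 (htf : ∀ (n : ℕ) (x : G), n ≠ 0 → n • x = 0 → x = 0) {K : ℝ} (hK : 1 ≤ K)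
    {m : ℕ} (hm : 2 ≤ m) {G' : Type*} [AddCommGroup G'] [DecidableEq G']
    (φ : Fin m → G →+ G') (hφ : ∀ i, Function.Injective (φ i)) {A : Finset G} (hA : A.Nonempty)
    (h : ((∑ j, A.image (φ j)).card : ℝ) ≤ K * A.card) :
    ∃ (d : ℕ) (B : Set (Fin d → ℝ)) (ψ : (Fin d → ℤ) →+ G) (T : Finset G),
      (d : ℝ) ≤ 330000 * (1 + Real.log K / Real.log m) ∧ SB B ∧ (LP B).ncard ≤ A.card ∧
      (T.card : ℝ) ≤ (2 * K) ^ ex K m ∧ ∀ a ∈ A, ∃ t ∈ T, ∃ c ∈ LP B, a = t + ψ c := by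
  classical
  have hc : ∀ i, (A.image (φ i)).card = A.card := fun i => card_image_of_injective _ (hφ i)
  obtain ⟨i, hi⟩ := exists_good hm (fun i => A.image (φ i)) (fun i => hA.image _) hK (by
    intro i
    rw [hc i]
    exact h)
  rw [hc i, sums_image, card_image_of_injective _ (hφ i)] at hi
  obtain ⟨d, B, ψ, hd, hB, hvol, hcov⟩ := part0 htf hK hm hA hi
    (N := A.card) hA.card_pos (by
      have : (0 : ℝ) < A.card := by exact_mod_cast hA.card_pos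
      nlinarith)
  obtain ⟨T, hT, hTc⟩ := hcov A (by
    refine le_trans ?_ hi
    rw [← sums_two]
    exact_mod_cast sums_mono hA hm)
  exact ⟨d, B, ψ, T, hd, hB, hvol, hT, hTc⟩

end Pool.Agent.Q130.HE
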