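import Pool.Agent.Q130.HE.Wbsg
import Pool.Agent.H112R2.Conv

/-! # Iterated sums: collision probabilities -/

set_option autoImplicit false

namespace Pool.Agent.Q130.HE

open Finset H112
open scoped Pointwise

variable {G : Type*} [AddCommGroup G] [DecidableEq G]

/-- the set of all sums of `m` elements of `A` -/
def sums (m : ℕ) (A : Finset G) : Finset G :=
  (Fintype.piFinset fun _ : Fin m => A).image fun a => ∑ i, a i

/-- the number of representations of `x` as a sum of `m` elements of `A` -/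
def reps (m : ℕ) (A : Finset G) (x : G) : ℕ :=
  ((Fintype.piFinset fun _ : Fin m => A).filter fun a => ∑ i, a i = x).card

/-- the number of pairs of `m`-tuples of elements of `A` with equal sums -/
def energy (m : ℕ) (A : Finset G) : ℕ :=
  (((Fintype.piFinset fun _ : Fin m => A) ×ˢ (Fintype.piFinset fun _ : Fin m => A)).filter
    fun p => ∑ i, p.1 i = ∑ i, p.2 i).card

theorem reps_zero (A : Finset G) (x : G) : reps 0 A x = if x = 0 then 1 else 0 := by
  unfold reps
  split_ifs with h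
  · subst h
    simp
  · rw [card_eq_zero, filter_eq_empty_iff]
    intro a _ h2
    apply h
    rw [← h2]
    simp

theorem reps_succ (m : ℕ) (A : Finset G) (x : G) :
    reps (m + 1) A x = ∑ a ∈ A, reps m A (x - a) := by
  unfold reps
  rw [← card_sigma]
  apply card_nbij' (fun f => (⟨f 0, Fin.tail f⟩ : Σ _ : G, Fin m → G))
    (fun p => Fin.cons p.1 p.2)
  · intro f hf
    simp only [coe_filter, Set.mem_ofPred_eq, Fintype.mem_piFinset, coe_sigma, Set.mem_sigma_iff,
      mem_coe] at hf ⊢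
    refine ⟨hf.1 0, fun i => hf.1 i.succ, ?_⟩
    rw [← hf.2, Fin.sum_univ_succ]
    simp only [Fin.tail]
    abel
  · rintro ⟨a, g⟩ hf
    simp only [coe_filter, Set.mem_ofPred_eq, Fintype.mem_piFinset, coe_sigma, Set.mem_sigma_iff,
      mem_coe] at hf ⊢
    refine ⟨?_, ?_⟩
    · intro i
      refine Fin.cases ?_ ?_ i
      · exact hf.1
      · intro j
        exact hf.2.1 j
    · rw [Fin.sum_univ_succ]
      simp only [Fin.cons_zero, Fin.cons_succ]
      rw [hf.2.2]
      abel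
  · intro f _
    exact Fin.cons_self_tail f
  · rintro ⟨a, g⟩ _
    simp

/-- the law of a sum of `n` independent uniform elements of `A` -/
noncomputable def lw (A : Finset G) (n : ℕ) (x : G) : ℝ := ((U A) ^ n).coeff x

omit [AddCommGroup G] in
theorem U_apply (A : Finset G) (x : G) :
    (U A).coeff x = if x ∈ A then (A.card : ℝ)⁻¹ else 0 := by
  show (unif A) x = _
  unfold unif
  rw [Finsupp.onFinset_apply]
  split_ifs <;> rfl

theorem lw_succ (A : Finset G) (n : ℕ) (x : G) :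
    lw A (n + 1) x = ∑ a ∈ A, (A.card : ℝ)⁻¹ * lw A n (x - a) := by
  unfold lw
  rw [pow_succ', H112.coeff_mul_apply, Finsupp.sum]
  have hsub : (U A).coeff.support ⊆ A := by
    intro y hy
    rw [Finsupp.mem_support_iff, U_apply] at hy
    by_contra h
    exact hy (if_neg h)
  rw [sum_subset hsub]
  · apply sum_congr rfl
    intro a ha
    rw [U_apply, if_pos ha]
  · intro a _ ha
    rw [Finsupp.notMem_support_iff] at ha
    rw [ha, zero_mul]

theorem lw_eq (A : Finset G) (n : ℕ) (x : G) :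
    lw A n x = reps n A x / (A.card : ℝ) ^ n := by
  induction n generalizing x with
  | zero =>
    rw [reps_zero]
    unfold lw
    rw [pow_zero, pow_zero, div_one, AddMonoidAlgebra.one_def]
    simp only [AddMonoidAlgebra.coeff_single, Finsupp.single_apply, eq_comm]
    split_ifs <;> simp
  | succ n ih =>
    rw [lw_succ, reps_succ, Nat.cast_sum, sum_div]
    apply sum_congr rfl
    intro a _
    rw [ih, pow_succ, div_mul_eq_div_div]
    ring

theorem lw_nonneg {A : Finset G} (hA : A.Nonempty) (n : ℕ) (x : G) : 0 ≤ lw A n x := by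
  rw [lw_eq]; positivity

/-- the support -/
noncomputable def sp (A : Finset G) (n : ℕ) : Finset G := ((U A) ^ n).coeff.support

omit [DecidableEq G] in
theorem lw_off (A : Finset G) (n : ℕ) (x : G) (hx : x ∉ sp A n) : lw A n x = 0 := by
  unfold sp at hx
  rw [Finsupp.notMem_support_iff] at hx
  exact hx

omit [DecidableEq G] in
theorem lw_sum {A : Finset G} (hA : A.Nonempty) (n : ℕ) : ∑ x ∈ sp A n, lw A n x = 1 :=
  ((law_U hA).pow n).2

omit [DecidableEq G] in
theorem lw_add (A : Finset G) (n k : ℕ) (s : G) :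
    lw A (n + k) s = ∑ x ∈ sp A n, lw A n x * lw A k (s - x) := by
  unfold lw
  rw [pow_add, H112.coeff_mul_apply]
  rfl

theorem sp_add (A : Finset G) (n k : ℕ) : sp A (n + k) ⊆ sp A n + sp A k := by
  unfold sp
  rw [pow_add]
  exact support_mul_subset (subset_refl _) (subset_refl _) (fun a ha b hb => add_mem_add ha hb)

/-- collision probability -/
noncomputable def cp (A : Finset G) (n : ℕ) : ℝ := ∑ x ∈ sp A n, lw A n x ^ 2

omit [DecidableEq G] in
theorem cp_eq_of_subset (A : Finset G) (n : ℕ) {S : Finset G} (hS : sp A n ⊆ S) :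
    cp A n = ∑ x ∈ S, lw A n x ^ 2 := by
  unfold cp
  apply sum_subset hS
  intro x _ hx
  rw [lw_off A n x hx]
  simp

theorem cp_add_le {A : Finset G} (hA : A.Nonempty) (n k : ℕ) : cp A (n + k) ≤ cp A k := by
  have h1 := lw_sum hA n
  have hw : ∀ x, 0 ≤ lw A n x := lw_nonneg hA n
  have h2 : ∀ s, lw A (n + k) s ^ 2 ≤ ∑ x ∈ sp A n, lw A n x * lw A k (s - x) ^ 2 := by
    intro s
    have h3 := sum_mul_sq_le_sq_mul_sq (sp A n) (fun x => √(lw A n x))
      (fun x => √(lw A n x) * lw A k (s - x))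
    have h4 : ∑ x ∈ sp A n, √(lw A n x) * (√(lw A n x) * lw A k (s - x)) = lw A (n + k) s := by
      rw [lw_add]
      apply sum_congr rfl
      intro x _
      rw [← mul_assoc, Real.mul_self_sqrt (hw x)]
    have h5 : ∑ x ∈ sp A n, √(lw A n x) ^ 2 = 1 := by
      rw [← h1]
      apply sum_congr rfl
      intro x _
      exact Real.sq_sqrt (hw x)
    have h6 : ∑ x ∈ sp A n, (√(lw A n x) * lw A k (s - x)) ^ 2 =
        ∑ x ∈ sp A n, lw A n x * lw A k (s - x) ^ 2 := by
      apply sum_congr rfl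
      intro x _
      rw [mul_pow, Real.sq_sqrt (hw x)]
    rw [h4, h5, h6, one_mul] at h3
    exact h3
  calc cp A (n + k) ≤ ∑ s ∈ sp A (n + k), ∑ x ∈ sp A n, lw A n x * lw A k (s - x) ^ 2 :=
        sum_le_sum fun s _ => h2 s
    _ = ∑ x ∈ sp A n, ∑ s ∈ sp A (n + k), lw A n x * lw A k (s - x) ^ 2 := sum_comm
    _ ≤ ∑ x ∈ sp A n, lw A n x * cp A k := by
        apply sum_le_sum
        intro x _
        rw [← mul_sum]
        apply mul_le_mul_of_nonneg_left _ (hw x)
        exact sum_shift_le (sp A k) _ (fun y => lw A k y ^ 2) (fun y => sq_nonneg _)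
          (fun y hy => by simp [lw_off A k y hy]) x
    _ = cp A k := by rw [← sum_mul, h1, one_mul]

theorem cp_anti {A : Finset G} (hA : A.Nonempty) {n m : ℕ} (h : n ≤ m) : cp A m ≤ cp A n := by
  obtain ⟨k, rfl⟩ := Nat.exists_eq_add_of_le' h
  exact cp_add_le hA k n

theorem cp_one {A : Finset G} (hA : A.Nonempty) : cp A 1 = (A.card : ℝ)⁻¹ := by
  have h1 : sp A 1 = A := by
    ext x
    unfold sp
    rw [pow_one, Finsupp.mem_support_iff, U_apply]
    have hc : (A.card : ℝ) ≠ 0 := by exact_mod_cast hA.card_pos.ne'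
    split_ifs with h
    · simp [h, hc]
    · simp [h]
  unfold cp
  rw [h1]
  have h2 : ∀ x ∈ A, lw A 1 x ^ 2 = ((A.card : ℝ)⁻¹) ^ 2 := by
    intro x hx
    unfold lw
    rw [pow_one, U_apply, if_pos hx]
  rw [sum_congr rfl h2, sum_const, nsmul_eq_mul]
  have hc : (A.card : ℝ) ≠ 0 := by exact_mod_cast hA.card_pos.ne'
  field_simp

theorem cp_double (A : Finset G) (n : ℕ) :
    cp A (n + n) = ∑ s ∈ sp A n + sp A n, cv (sp A n) (lw A n) s ^ 2 := by
  rw [cp_eq_of_subset A (n + n) (sp_add A n n)]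
  apply sum_congr rfl
  intro s _
  rw [lw_add]
  rfl

theorem energy_eq (m : ℕ) (A S : Finset G) (hS : sums m A ⊆ S) :
    energy m A = ∑ s ∈ S, reps m A s ^ 2 := by
  unfold energy
  have h1 := card_eq_sum_card_fiberwise (f := fun p : (Fin m → G) × (Fin m → G) => ∑ i, p.1 i)
    (s := ((Fintype.piFinset fun _ : Fin m => A) ×ˢ (Fintype.piFinset fun _ : Fin m => A)).filter
    fun p => ∑ i, p.1 i = ∑ i, p.2 i) (t := S) (fun p hp => by
      rw [mem_coe, mem_filter, mem_product] at hp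
      exact hS (mem_image_of_mem _ hp.1.1))
  rw [h1]
  apply sum_congr rfl
  intro s _
  unfold reps
  rw [sq, ← card_product]
  congr 1
  ext p
  simp only [mem_filter, mem_product]
  constructor
  · rintro ⟨⟨⟨h1, h2⟩, h3⟩, h4⟩
    exact ⟨⟨h1, h4⟩, h2, by rw [← h3, h4]⟩
  · rintro ⟨⟨h1, h2⟩, h3, h4⟩
    exact ⟨⟨⟨h1, h3⟩, by rw [h2, h4]⟩, h2⟩

theorem reps_off {m : ℕ} {A : Finset G} {x : G} (hx : x ∉ sums m A) : reps m A x = 0 := by
  unfold reps
  rw [card_eq_zero, filter_eq_empty_iff]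
  intro a ha h
  apply hx
  rw [← h]
  exact mem_image_of_mem _ ha

theorem cp_energy {A : Finset G} (hA : A.Nonempty) (m : ℕ) :
    cp A m * (A.card : ℝ) ^ (2 * m) = energy m A := by
  have hc : (A.card : ℝ) ≠ 0 := by exact_mod_cast hA.card_pos.ne'
  rw [energy_eq m A (sums m A ∪ sp A m) subset_union_left,
    cp_eq_of_subset A m (S := sums m A ∪ sp A m) subset_union_right, sum_mul]
  push_cast
  apply sum_congr rfl
  intro s _
  rw [lw_eq, div_pow, ← pow_mul, mul_comm m 2]
  field_simp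

/-- one translate of `B` contains many elements of `A` -/
theorem exists_translate {A : Finset G} (hA : A.Nonempty) (n : ℕ) (B : Finset G) (N : ℝ)
    (hN : ∀ y, ((A.filter fun a => a + y ∈ B).card : ℝ) ≤ N) :
    (A.card : ℝ) * ∑ b ∈ B, lw A (n + 1) b ≤ N := by
  have hc : (A.card : ℝ) ≠ 0 := by exact_mod_cast hA.card_pos.ne'
  have h1 : (A.card : ℝ) * ∑ b ∈ B, lw A (n + 1) b = ∑ a ∈ A, ∑ b ∈ B, lw A n (b - a) := by
    rw [sum_comm, mul_sum]
    apply sum_congr rfl
    intro b _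
    rw [lw_succ, mul_sum]
    apply sum_congr rfl
    intro a _
    field_simp
  have h2 : ∀ a, ∑ b ∈ B, lw A n (b - a) = ∑ y ∈ sp A n, if a + y ∈ B then lw A n y else 0 := by
    intro a
    rw [← sum_filter]
    have h3 : ∑ b ∈ B, lw A n (b - a) = ∑ y ∈ B.image (fun b => b - a), lw A n y := by
      rw [sum_image]
      intro x _ y _ h
      exact sub_left_injective h
    rw [h3]
    symm
    apply sum_subset
    · intro y hy
      rw [mem_filter] at hy
      rw [mem_image]
      exact ⟨a + y, hy.2, by abel⟩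
    · intro y hy hy2
      apply lw_off
      intro h
      apply hy2
      rw [mem_filter]
      refine ⟨h, ?_⟩
      obtain ⟨b, hb, rfl⟩ := mem_image.1 hy
      rw [add_sub_cancel]
      exact hb
  rw [h1]
  calc ∑ a ∈ A, ∑ b ∈ B, lw A n (b - a)
      = ∑ y ∈ sp A n, ∑ a ∈ A, if a + y ∈ B then lw A n y else 0 := by
        rw [sum_congr rfl fun a _ => h2 a]
        exact sum_comm
    _ = ∑ y ∈ sp A n, lw A n y * ((A.filter fun a => a + y ∈ B).card : ℝ) := by
        apply sum_congr rfl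
        intro y _
        rw [← sum_filter, sum_const, nsmul_eq_mul, mul_comm]
    _ ≤ ∑ y ∈ sp A n, lw A n y * N := by
        apply sum_le_sum
        intro y _
        exact mul_le_mul_of_nonneg_left (hN y) (lw_nonneg hA n y)
    _ = N := by rw [← sum_mul, lw_sum hA n, one_mul]

omit [DecidableEq G] in
theorem cp_pos {A : Finset G} (hA : A.Nonempty) (n : ℕ) : 0 < cp A n := by
  unfold cp
  by_contra hcon
  have h2 : ∀ x ∈ sp A n, lw A n x ^ 2 = 0 := by
    have h3 : ∑ x ∈ sp A n, lw A n x ^ 2 = 0 :=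
      le_antisymm (not_lt.1 hcon) (sum_nonneg fun x _ => sq_nonneg _)
    exact (sum_eq_zero_iff_of_nonneg fun x _ => sq_nonneg _).1 h3
  have h3 : ∑ x ∈ sp A n, lw A n x = 0 := sum_eq_zero fun x hx => by
    have := h2 x hx
    exact pow_eq_zero_iff (two_ne_zero) |>.1 this
  rw [lw_sum hA n] at h3
  exact one_ne_zero h3

/-- pigeonhole principle for the scales -/
theorem scale {c : ℕ → ℝ} {K' : ℝ} (hK' : 0 < K') {J : ℕ}
    (hJ : 1 ≤ J) (h : c 1 ≤ K' ^ J * c (2 ^ J)) :
    ∃ j < J, c (2 ^ j) ≤ K' * c (2 ^ j + 2 ^ j) := by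
  by_contra hcon
  push Not at hcon
  have h1 : ∀ j ≤ J, 1 ≤ j → K' ^ j * c (2 ^ j) < c 1 := by
    intro j
    induction j with
    | zero => intro _ h; omega
    | succ j ih =>
      intro hj _
      have h2 := hcon j (by omega)
      rw [show (2 : ℕ) ^ (j + 1) = 2 ^ j + 2 ^ j by ring]
      rcases Nat.eq_zero_or_pos j with h0 | h0
      · subst h0
        simpa using h2
      · have h3 := ih (by omega) h0
        calc K' ^ (j + 1) * c (2 ^ j + 2 ^ j) = K' ^ j * (K' * c (2 ^ j + 2 ^ j)) := by ring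
          _ < K' ^ j * c (2 ^ j) := mul_lt_mul_of_pos_left h2 (by positivity)
          _ < c 1 := h3
  exact absurd h (not_le.2 (h1 J le_rfl hJ))

/-- the structured piece -/
theorem piece {A : Finset G} (hA : A.Nonempty) {K K' : ℝ} (hK' : 1 ≤ K') {J m : ℕ} (hJ : 1 ≤ J)
    (hKJ : K = K' ^ J) (hm : 2 ^ J ≤ m)
    (hE : (A.card : ℝ) ^ (2 * m) ≤ K * (A.card * energy m A)) :
    ∃ (B : Finset G) (y : G), B.Nonempty ∧ (B.card : ℝ) ≤ 8 * K' * K * A.card ∧
      ((B + B).card : ℝ) ≤ 2 ^ 504 * K' ^ 160 * B.card ∧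
      (A.card : ℝ) ≤ 2 ^ 43 * K' ^ 14 * (A.filter fun a => a + y ∈ B).card := by
  have hc : (0 : ℝ) < A.card := by exact_mod_cast hA.card_pos
  have hK'0 : 0 < K' := by linarith
  have hK0 : 0 < K := by rw [hKJ]; positivity
  have hcm : 1 ≤ K * (A.card * cp A m) := by
    rw [← cp_energy hA m] at hE
    have h1 : (A.card : ℝ) ^ (2 * m) * 1 ≤ (A.card : ℝ) ^ (2 * m) * (K * (A.card * cp A m)) := by
      calc (A.card : ℝ) ^ (2 * m) * 1 = (A.card : ℝ) ^ (2 * m) := mul_one _
        _ ≤ _ := hE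
        _ = _ := by ring
    exact le_of_mul_le_mul_left h1 (by positivity)
  obtain ⟨j, hj, hjc⟩ := scale (c := cp A) hK'0 hJ (by
    rw [← hKJ, cp_one hA]
    have h1 := cp_anti hA hm
    calc (A.card : ℝ)⁻¹ = (A.card : ℝ)⁻¹ * 1 := (mul_one _).symm
      _ ≤ (A.card : ℝ)⁻¹ * (K * (A.card * cp A m)) := by gcongr
      _ = K * cp A m := by field_simp
      _ ≤ K * cp A (2 ^ J) := by gcongr)
  obtain ⟨B, hBne, hB1, hB2, hB3⟩ := wbsg (sp A (2 ^ j)) (lw A (2 ^ j)) (lw_nonneg hA _)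
    (lw_off A _) (lw_sum hA _) K' hK' (by
      rw [← cp_double]
      exact hjc)
  have hcpj : cp A m ≤ cp A (2 ^ j) := cp_anti hA (by
    calc 2 ^ j ≤ 2 ^ J := Nat.pow_le_pow_right (by norm_num) hj.le
      _ ≤ m := hm)
  have hBc : (B.card : ℝ) ≤ 8 * K' * K * A.card := by
    have h1 : (B.card : ℝ) * cp A (2 ^ j) ≤ 8 * K' := hB1
    calc (B.card : ℝ) = B.card * 1 := (mul_one _).symm
      _ ≤ B.card * (K * (A.card * cp A m)) := by gcongr
      _ ≤ B.card * (K * (A.card * cp A (2 ^ j))) := by gcongr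
      _ = (B.card * cp A (2 ^ j)) * (K * A.card) := by ring
      _ ≤ 8 * K' * (K * A.card) := by gcongr
      _ = _ := by ring
  obtain ⟨n, hn⟩ : ∃ n, 2 ^ j = n + 1 := ⟨2 ^ j - 1, by
    have : 1 ≤ 2 ^ j := Nat.one_le_two_pow
    omega⟩
  by_contra hcon
  push Not at hcon
  have h2 : ∀ y, 2 ^ 43 * K' ^ 14 * ((A.filter fun a => a + y ∈ B).card : ℝ) < A.card :=
    fun y => hcon B y hBne hBc hB2
  -- the maximal value is attained
  obtain ⟨N, hN1, y1, hN2⟩ : ∃ N : ℕ, (∀ y, (A.filter fun a => a + y ∈ B).card ≤ N) ∧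
      ∃ y, (A.filter fun a => a + y ∈ B).card = N := by
    have hbdd : BddAbove (Set.range fun y => (A.filter fun a => a + y ∈ B).card) :=
      ⟨A.card, by rintro _ ⟨y, rfl⟩; exact card_filter_le _ _⟩
    obtain ⟨y, hy⟩ := Nat.sSup_mem (s := Set.range fun y => (A.filter fun a => a + y ∈ B).card)
      ⟨_, 0, rfl⟩ hbdd
    exact ⟨_, fun y' => le_csSup hbdd ⟨y', rfl⟩, y, hy⟩
  have h3 := exists_translate hA n B N (fun y => by exact_mod_cast hN1 y)
  rw [← hn] at h3
  have h4 := h2 y1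
  rw [hN2] at h4
  have h5 : (A.card : ℝ) * 1 ≤ A.card * (2 ^ 43 * K' ^ 14 * ∑ x ∈ B, lw A (2 ^ j) x) :=
    mul_le_mul_of_nonneg_left hB3 hc.le
  have h6 : A.card * (2 ^ 43 * K' ^ 14 * ∑ x ∈ B, lw A (2 ^ j) x) ≤ 2 ^ 43 * K' ^ 14 * N := by
    calc A.card * (2 ^ 43 * K' ^ 14 * ∑ x ∈ B, lw A (2 ^ j) x)
        = 2 ^ 43 * K' ^ 14 * (A.card * ∑ x ∈ B, lw A (2 ^ j) x) := by ring
      _ ≤ 2 ^ 43 * K' ^ 14 * N := by gcongr
  linarith

end Pool.Agent.Q130.HE
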