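import Pool.Agent.Q130.HE.Iter
import Pool.Agent.H112R2.Final
import Pool.Agent.TH198.DC.Cover

/-! # The inverse theorem for `m`-fold energies and sumsets -/

set_option autoImplicit false

namespace Pool.Agent.Q130.HE

open Finset
open scoped Pointwise
open Pool.Agent.TH198.DC (SB LP rv)

variable {G : Type*} [AddCommGroup G] [DecidableEq G]

/-- the bound for the number of translates in the near-polynomial Freiman-Ruzsa theorem -/
noncomputable def nb (K₂ : ℝ) : ℝ := (2 * K₂) ^ (13000 * (1 + Real.log (1 + Real.log (2 * K₂))))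

theorem sb_of {d : ℕ} {B : Set (Fin d → ℝ)} (h : H112.SymmBody B) : SB B :=
  ⟨h.1, h.2.1, h.2.2.1, h.2.2.2⟩

/-- near-PFR in a torsion-free group -/
theorem near (htf : ∀ (n : ℕ) (x : G), n ≠ 0 → n • x = 0 → x = 0) {K₂ : ℝ} {B : Finset G}
    (hB : B.Nonempty) (hK : ((B + B).card : ℝ) ≤ K₂ * B.card) :
    ∃ (d : ℕ) (B₀ : Set (Fin d → ℝ)) (ψ : (Fin d → ℤ) →+ G) (T : Finset G),
      (d : ℝ) ≤ 300 * Real.log (2 * K₂) ∧ SB B₀ ∧ (LP B₀).ncard ≤ B.card ∧
      (T.card : ℝ) ≤ nb K₂ ∧ ∀ b ∈ B, ∃ t ∈ T, ∃ c ∈ LP B₀, b = t + ψ c := by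
  obtain ⟨d, B₀, ψ, H, T, hd, hB₀, hH, hvol, hT, hcov⟩ := H112.near_pfr hB hK
  have hHbot : ∀ h ∈ H, h = 0 := by
    intro h hh
    have h1 : Nat.card H • (⟨h, hh⟩ : H) = 0 := card_nsmul_eq_zero'
    have h2 : Nat.card H • h = 0 := by
      have h3 := congrArg H.subtype h1
      rw [map_nsmul, map_zero] at h3
      exact h3
    exact htf _ h Nat.card_pos.ne' h2
  have hHcard : Nat.card H = 1 := by
    rw [Nat.card_eq_one_iff_unique]
    refine ⟨⟨fun a b => Subtype.ext ?_⟩, ⟨0⟩⟩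
    rw [hHbot a.1 a.2, hHbot b.1 b.2]
  refine ⟨d, B₀, ψ, T, hd, sb_of hB₀, ?_, hT, ?_⟩
  · rw [hHcard, mul_one] at hvol
    exact hvol
  · intro b hb
    obtain ⟨t, ht, c, hc, h, hh, e⟩ := hcov b hb
    refine ⟨t, ht, c, hc, ?_⟩
    rw [e, hHbot h hh, add_zero]

/-- large intersection with a convex progression -/
theorem inter (htf : ∀ (n : ℕ) (x : G), n ≠ 0 → n • x = 0 → x = 0) {A : Finset G}
    (hA : A.Nonempty) {K K' : ℝ} (hK' : 1 ≤ K') {J m : ℕ} (hJ : 1 ≤ J)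
    (hKJ : K = K' ^ J) (hm : 2 ^ J ≤ m)
    (hE : (A.card : ℝ) ^ (2 * m) ≤ K * (A.card * energy m A)) :
    ∃ (d : ℕ) (B : Set (Fin d → ℝ)) (ψ : (Fin d → ℤ) →+ G) (u : G),
      (d : ℝ) ≤ 300 * Real.log (2 * (2 ^ 504 * K' ^ 160)) ∧ SB B ∧ (LP B).ncard ≤ A.card ∧
      (A.card : ℝ) ≤ (2 ^ 43 * K' ^ 14 * nb (2 ^ 504 * K' ^ 160) * (625 ^ d * (8 * K' * K))) *
        (({a | a ∈ A ∧ ∃ c ∈ LP B, a = u + ψ c} : Set G).ncard : ℝ) := by
  classical
  have hc : (0 : ℝ) < A.card := by exact_mod_cast hA.card_pos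
  have hK'0 : 0 < K' := by linarith
  have hK1 : 1 ≤ K := by rw [hKJ]; exact one_le_pow₀ hK'
  obtain ⟨B₁, y, hne, hB1, hB2, hB3⟩ := piece hA hK' hJ hKJ hm hE
  obtain ⟨d, B₀, ψ, T, hd, hB₀, hvol, hT, hcov⟩ := near htf hne hB2
  obtain ⟨B, hB, hBc, X, hX, hXcov⟩ := hB₀.shrink (N := A.card) hA.card_pos
  have hXc : (X.card : ℝ) ≤ 625 ^ d * (8 * K' * K) := by
    have h1 : ((X.card * A.card : ℕ) : ℝ) ≤ ((625 ^ d * max A.card (LP B₀).ncard : ℕ) : ℝ) := by
      exact_mod_cast hX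
    push_cast at h1
    have h2 : max (A.card : ℝ) ((LP B₀).ncard : ℝ) ≤ 8 * K' * K * A.card := by
      apply max_le
      · have : 1 ≤ 8 * K' * K := by nlinarith
        nlinarith
      · refine le_trans ?_ hB1
        exact_mod_cast hvol
    have h3 : (X.card : ℝ) * A.card ≤ (625 ^ d * (8 * K' * K)) * A.card := by
      calc (X.card : ℝ) * A.card ≤ 625 ^ d * max (A.card : ℝ) ((LP B₀).ncard : ℝ) := h1
        _ ≤ 625 ^ d * (8 * K' * K * A.card) := by gcongr
        _ = _ := by ring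
    exact le_of_mul_le_mul_right h3 hc
  -- the sets
  obtain ⟨P, hP⟩ : ∃ P : G → Finset G, P = fun u => A.filter fun a => ∃ c ∈ LP B, a = u + ψ c :=
    ⟨_, rfl⟩
  have hcover : (A.filter fun a => a + y ∈ B₁) ⊆
      (T ×ˢ X).biUnion fun p => P (p.1 - y + ψ p.2) := by
    intro a ha
    rw [mem_filter] at ha
    obtain ⟨t, ht, c, hc, e⟩ := hcov _ ha.2
    have hc2 : c ∈ LP ((2 : ℝ) • B₀) := by
      have h1 : rv c ∈ B₀ := hc
      have h2 := hB₀.smul_subset (r := 1) (s := 2) (by norm_num) (by norm_num)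
      rw [one_smul] at h2
      exact h2 h1
    obtain ⟨x, hx, w, hw, e2⟩ := hXcov c hc2
    rw [mem_biUnion]
    refine ⟨(t, x), mem_product.2 ⟨ht, hx⟩, ?_⟩
    rw [hP]
    simp only [mem_filter]
    refine ⟨ha.1, w, hw, ?_⟩
    have : a = t + ψ c - y := by rw [← e]; abel
    rw [this, e2, map_add]
    abel
  obtain ⟨N, hN1, u, hN2⟩ : ∃ N : ℕ, (∀ u, (P u).card ≤ N) ∧ ∃ u, (P u).card = N := by
    have hbdd : BddAbove (Set.range fun u => (P u).card) :=
      ⟨A.card, by rintro _ ⟨u, rfl⟩; simp only [hP]; exact card_filter_le _ _⟩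
    obtain ⟨u, hu⟩ := Nat.sSup_mem (s := Set.range fun u => (P u).card) ⟨_, 0, rfl⟩ hbdd
    exact ⟨_, fun y' => le_csSup hbdd ⟨y', rfl⟩, u, hu⟩
  have hcount : ((A.filter fun a => a + y ∈ B₁).card : ℝ) ≤ (T.card * X.card) * N := by
    have h1 := (card_le_card hcover).trans card_biUnion_le
    have h2 : ∑ p ∈ T ×ˢ X, (P (p.1 - y + ψ p.2)).card ≤ (T.card * X.card) * N := by
      calc ∑ p ∈ T ×ˢ X, (P (p.1 - y + ψ p.2)).card ≤ ∑ p ∈ T ×ˢ X, N :=
            sum_le_sum fun p _ => hN1 _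
        _ = (T.card * X.card) * N := by rw [sum_const, card_product, smul_eq_mul]
    exact_mod_cast h1.trans h2
  refine ⟨d, B, ψ, u, hd, hB, hBc, ?_⟩
  have hset : ({a | a ∈ A ∧ ∃ c ∈ LP B, a = u + ψ c} : Set G).ncard = N := by
    rw [← hN2, ← Set.ncard_coe_finset]
    congr 1
    ext a
    rw [hP]
    simp
  rw [hset]
  have hnb : 0 ≤ nb (2 ^ 504 * K' ^ 160) := by
    unfold nb
    positivity
  calc (A.card : ℝ) ≤ 2 ^ 43 * K' ^ 14 * (A.filter fun a => a + y ∈ B₁).card := hB3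
    _ ≤ 2 ^ 43 * K' ^ 14 * ((T.card * X.card) * N) := by gcongr
    _ ≤ 2 ^ 43 * K' ^ 14 * ((nb (2 ^ 504 * K' ^ 160) * (625 ^ d * (8 * K' * K))) * N) := by
        gcongr
    _ = _ := by ring

theorem energy_of_sums {A : Finset G} {K : ℝ} {m : ℕ}
    (h : ((sums m A).card : ℝ) ≤ K * A.card) :
    (A.card : ℝ) ^ (2 * m) ≤ K * (A.card * energy m A) := by
  have h1 : ∑ s ∈ sums m A, reps m A s = A.card ^ m := by
    have h2 := card_eq_sum_card_fiberwise (f := fun a : Fin m → G => ∑ i, a i)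
      (s := Fintype.piFinset fun _ : Fin m => A) (t := sums m A) (fun a ha =>
        mem_image_of_mem _ ha)
    rw [Fintype.card_piFinset] at h2
    simp only [prod_const, card_univ, Fintype.card_fin] at h2
    exact h2.symm
  have h3 : ((A.card : ℝ) ^ m) ^ 2 ≤ (sums m A).card * energy m A := by
    rw [energy_eq m A (sums m A) (subset_refl _), show (A.card : ℝ) ^ m =
      ∑ s ∈ sums m A, (reps m A s : ℝ) by exact_mod_cast h1.symm]
    push_cast
    have h4 := sum_mul_sq_le_sq_mul_sq (sums m A) (fun _ => (1 : ℝ)) (fun s => (reps m A s : ℝ))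
    simpa using h4
  calc (A.card : ℝ) ^ (2 * m) = ((A.card : ℝ) ^ m) ^ 2 := by rw [← pow_mul, mul_comm]
    _ ≤ (sums m A).card * energy m A := h3
    _ ≤ (K * A.card) * energy m A := by gcongr
    _ = _ := by ring

/-- covering all sets with a small sum with `A` by translates of one convex progression -/
theorem cover_all (htf : ∀ (n : ℕ) (x : G), n ≠ 0 → n • x = 0 → x = 0) {A : Finset G}
    (hA : A.Nonempty) {K K' : ℝ} (hK' : 1 ≤ K') {J m : ℕ} (hJ : 1 ≤ J)
    (hKJ : K = K' ^ J) (hm : 2 ^ J ≤ m)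
    (hE : (A.card : ℝ) ^ (2 * m) ≤ K * (A.card * energy m A))
    {L : ℝ} (hL : 1 ≤ L) {N : ℕ} (hN : 1 ≤ N) (hAN : (A.card : ℝ) ≤ L * N) :
    ∃ (d : ℕ) (B : Set (Fin d → ℝ)) (ψ : (Fin d → ℤ) →+ G),
      (d : ℝ) ≤ 300 * Real.log (2 * (2 ^ 504 * K' ^ 160)) ∧ SB B ∧ (LP B).ncard ≤ N ∧
      ∀ D : Finset G, ((D + A).card : ℝ) ≤ L * A.card → ∃ T : Finset G,
        (T.card : ℝ) ≤ L ^ 2 * (2 ^ 43 * K' ^ 14 * nb (2 ^ 504 * K' ^ 160) *
          (625 ^ d * (8 * K' * K))) * 625 ^ d ∧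
        ∀ a ∈ D, ∃ t ∈ T, ∃ c ∈ LP B, a = t + ψ c := by
  classical
  have hc : (0 : ℝ) < A.card := by exact_mod_cast hA.card_pos
  have hNr : (0 : ℝ) < N := by exact_mod_cast hN
  have hL0 : 0 < L := by linarith
  obtain ⟨d, B₀, ψ, u, hd, hB₀, hvol, hbig⟩ := inter htf hA hK' hJ hKJ hm hE
  obtain ⟨Q, hQ⟩ : ∃ Q, Q = 2 ^ 43 * K' ^ 14 * nb (2 ^ 504 * K' ^ 160) *
        (625 ^ d * (8 * K' * K)) := ⟨_, rfl⟩
  rw [← hQ] at hbig
  obtain ⟨A', hA'⟩ : ∃ A' : Finset G, A' = A.filter fun a => ∃ c ∈ LP B₀, a = u + ψ c := ⟨_, rfl⟩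
  have hset : ({a | a ∈ A ∧ ∃ c ∈ LP B₀, a = u + ψ c} : Set G).ncard = A'.card := by
    rw [← Set.ncard_coe_finset]
    congr 1
    ext a
    rw [hA']
    simp
  rw [hset] at hbig
  have hA'ne : A'.Nonempty := by
    rw [nonempty_iff_ne_empty]
    intro h0
    rw [h0, card_empty, Nat.cast_zero, mul_zero] at hbig
    linarith
  have hA'A : A' ⊆ A := by rw [hA']; exact filter_subset _ _
  obtain ⟨B, hB, hBc, X, hX, hXcov⟩ := hB₀.shrink (N := N) hN
  have hXc : (X.card : ℝ) ≤ L * 625 ^ d := by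
    have h1 : ((X.card * N : ℕ) : ℝ) ≤ ((625 ^ d * max N (LP B₀).ncard : ℕ) : ℝ) := by
      exact_mod_cast hX
    push_cast at h1
    have h2 : max (N : ℝ) ((LP B₀).ncard : ℝ) ≤ L * N := by
      apply max_le
      · nlinarith
      · refine le_trans ?_ hAN
        exact_mod_cast hvol
    have h3 : (X.card : ℝ) * N ≤ (L * 625 ^ d) * N := by
      calc (X.card : ℝ) * N ≤ 625 ^ d * max (N : ℝ) ((LP B₀).ncard : ℝ) := h1
        _ ≤ 625 ^ d * (L * N) := by gcongr
        _ = _ := by ring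
    exact le_of_mul_le_mul_right h3 hNr
  refine ⟨d, B, ψ, hd, hB, hBc, fun D hD => ?_⟩
  have hAA : ((D + A').card : ℝ) ≤ L * Q * A'.card := by
    calc ((D + A').card : ℝ) ≤ (D + A).card := by
          exact_mod_cast card_le_card (add_subset_add (subset_refl _) hA'A)
      _ ≤ L * A.card := hD
      _ ≤ L * (Q * A'.card) := by gcongr
      _ = _ := by ring
  obtain ⟨X₂, hX₂A, hX₂c, hX₂⟩ := ruzsa_covering_add (A := D) (B := A') (K := L * Q) hA'ne hAA
  refine ⟨(X₂ ×ˢ X).image fun p => p.1 + ψ p.2, ?_, ?_⟩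
  · have h1 : ((X₂ ×ˢ X).image fun p => p.1 + ψ p.2).card ≤ X₂.card * X.card :=
      card_image_le.trans (le_of_eq (card_product _ _))
    have hQ0 : 0 ≤ L * Q := by
      by_contra hcon
      have : (0 : ℝ) ≤ X₂.card := by positivity
      linarith
    calc (((X₂ ×ˢ X).image fun p => p.1 + ψ p.2).card : ℝ) ≤ X₂.card * X.card := by exact_mod_cast h1
      _ ≤ (L * Q) * (L * 625 ^ d) := mul_le_mul hX₂c hXc (by positivity) hQ0
      _ = L ^ 2 * Q * 625 ^ d := by ring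
      _ = _ := by rw [hQ]
  · intro a ha
    have h1 := hX₂ ha
    rw [mem_add] at h1
    obtain ⟨x, hx, z, hz, e⟩ := h1
    rw [mem_sub] at hz
    obtain ⟨a₁, ha₁, a₂, ha₂, e₂⟩ := hz
    rw [hA', mem_filter] at ha₁ ha₂
    obtain ⟨-, c₁, hc₁, e₃⟩ := ha₁
    obtain ⟨-, c₂, hc₂, e₄⟩ := ha₂
    have hcc : c₁ - c₂ ∈ LP ((2 : ℝ) • B₀) := by
      have h2 : rv c₁ ∈ (1 : ℝ) • B₀ := by rw [one_smul]; exact hc₁
      have h3 : rv (-c₂) ∈ (1 : ℝ) • B₀ := by
        rw [one_smul]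
        have : rv (-c₂) = -rv c₂ := by
          funext i
          simp [Pool.Agent.TH198.DC.rv]
        rw [this]
        exact hB₀.symm _ hc₂
      have h4 := hB₀.add_mem (by norm_num) (by norm_num) h2 h3
      show rv (c₁ - c₂) ∈ (2 : ℝ) • B₀
      rw [sub_eq_add_neg, Pool.Agent.TH198.DC.rv_add]
      rw [show (1 : ℝ) + 1 = 2 by norm_num] at h4
      exact h4
    obtain ⟨x', hx', w, hw, e₅⟩ := hXcov _ hcc
    refine ⟨x + ψ x', mem_image.2 ⟨(x, x'), mem_product.2 ⟨hx, hx'⟩, rfl⟩, w, hw, ?_⟩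
    calc a = x + z := e.symm
      _ = x + (ψ c₁ - ψ c₂) := by
        congr 1
        rw [← e₂, e₃, e₄]; abel
      _ = x + ψ (c₁ - c₂) := by rw [map_sub]
      _ = x + ψ x' + ψ w := by rw [e₅, map_add]; abel

/-! ### sums of `m` sets -/

theorem sums_zero (A : Finset G) : sums 0 A = 0 := by
  unfold sums
  ext x
  simp

theorem sums_succ (m : ℕ) (A : Finset G) : sums (m + 1) A = sums m A + A := by
  ext x
  unfold sums
  rw [mem_image, mem_add]
  constructor
  · rintro ⟨f, hf, rfl⟩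
    rw [Fintype.mem_piFinset] at hf
    refine ⟨∑ i, f (Fin.castSucc i), mem_image.2 ⟨fun i => f (Fin.castSucc i), ?_, rfl⟩,
      f (Fin.last m), hf _, ?_⟩
    · rw [Fintype.mem_piFinset]
      intro i
      exact hf _
    · rw [Fin.sum_univ_castSucc]
  · rintro ⟨y, hy, a, ha, rfl⟩
    obtain ⟨g, hg, rfl⟩ := mem_image.1 hy
    rw [Fintype.mem_piFinset] at hg
    refine ⟨Fin.snoc g a, ?_, ?_⟩
    · rw [Fintype.mem_piFinset]
      intro i
      refine Fin.lastCases ?_ ?_ i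
      · rw [Fin.snoc_last]; exact ha
      · intro j
        rw [Fin.snoc_castSucc]; exact hg j
    · rw [Fin.sum_univ_castSucc]
      simp

theorem sums_eq_sum (m : ℕ) (A : Finset G) : sums m A = ∑ _i : Fin m, A := by
  induction m with
  | zero => rw [sums_zero]; simp
  | succ m ih => rw [sums_succ, ih, Fin.sum_univ_castSucc]

/-- Plünnecke's inequality for iterated sumsets -/
theorem sums_card_le {S A : Finset G} (hS : S.Nonempty) {α : ℝ}
    (h : ((S + A).card : ℝ) ≤ α * S.card) (n : ℕ) :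
    ((sums n A).card : ℝ) ≤ α ^ n * S.card := by
  have hs : (0 : ℝ) < S.card := by exact_mod_cast hS.card_pos
  have h1 := pluennecke_ruzsa_inequality_nsmul_add hS A n
  have e : n • A = sums n A := by
    rw [sums_eq_sum, sum_const, card_univ, Fintype.card_fin]
  rw [e] at h1
  have h2 : (((sums n A).card : ℚ≥0) : ℝ) ≤
      ((((S + A).card : ℚ≥0) / (S.card : ℚ≥0)) ^ n * (S.card : ℚ≥0) : ℚ≥0) := by
    exact_mod_cast h1
  push_cast at h2
  refine h2.trans ?_
  apply mul_le_mul_of_nonneg_right _ hs.le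
  apply pow_le_pow_left₀ (by positivity)
  rw [div_le_iff₀ hs]
  exact h

theorem sum_nonempty {ι : Type*} (s : Finset ι) (A : ι → Finset G) (hA : ∀ i ∈ s, (A i).Nonempty) :
    (∑ i ∈ s, A i).Nonempty := by
  classical
  induction s using Finset.induction_on with
  | empty => rw [sum_empty]; exact zero_nonempty
  | insert a s ha ih =>
    rw [sum_insert ha]
    exact (hA a (mem_insert_self _ _)).add (ih fun i hi => hA i (mem_insert_of_mem hi))

theorem card_sum_mono {ι : Type*} {s t : Finset ι} (hst : s ⊆ t) (A : ι → Finset G)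
    (hA : ∀ i ∈ t, (A i).Nonempty) : (∑ i ∈ s, A i).card ≤ (∑ i ∈ t, A i).card := by
  classical
  rw [← sum_sdiff hst]
  exact card_le_card_add_left (sum_nonempty _ A fun i hi => hA i (mem_sdiff.1 hi).1)

/-- among `m` sets with a small sum there is one with a small `m`-fold sumset -/
theorem exists_good {m : ℕ} (hm : 2 ≤ m) (A : Fin m → Finset G) (hA : ∀ i, (A i).Nonempty)
    {K : ℝ} (hK : 1 ≤ K) (h : ∀ i, ((∑ j, A j).card : ℝ) ≤ K * (A i).card) :
    ∃ i, ((sums m (A i)).card : ℝ) ≤ K ^ 3 * (A i).card := by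
  classical
  have hK0 : 0 < K := by linarith
  obtain ⟨A', hA'⟩ : ∃ A' : ℕ → Finset G, A' = fun i => if h : i < m then A ⟨i, h⟩ else 0 := ⟨_, rfl⟩
  have hA'i : ∀ i : Fin m, A' i = A i := by
    intro i
    rw [hA']
    simp
  have hsum : ∑ j, A j = ∑ i ∈ range m, A' i := by
    rw [← Fin.sum_univ_eq_sum_range]
    exact sum_congr rfl fun i _ => (hA'i i).symm
  have hA'ne : ∀ i, (A' i).Nonempty := by
    intro i
    rw [hA']
    simp only
    split_ifs
    · exact hA _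
    · exact zero_nonempty
  obtain ⟨S, hS⟩ : ∃ S : ℕ → Finset G, S = fun k => ∑ i ∈ range k, A' i := ⟨_, rfl⟩
  have hSsucc : ∀ k, S (k + 1) = S k + A' k := by
    intro k
    rw [hS]
    exact sum_range_succ _ _
  have hSne : ∀ k, (S k).Nonempty := by
    intro k
    rw [hS]
    exact sum_nonempty _ _ fun i _ => hA'ne i
  have hSmono : ∀ k ≤ m, (S k).card ≤ (S m).card := by
    intro k hk
    rw [hS]
    exact card_sum_mono (range_subset_range.2 hk) _ fun i _ => hA'ne i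
  have hSm : ∀ i : Fin m, ((S m).card : ℝ) ≤ K * (A i).card := by
    intro i
    have := h i
    rw [hsum] at this
    rw [hS]
    exact this
  obtain ⟨α, hα⟩ : ∃ α, α = K ^ (((m - 1 : ℕ) : ℝ)⁻¹) := ⟨_, rfl⟩
  have hα1 : 1 ≤ α := by rw [hα]; exact Real.one_le_rpow hK (by positivity)
  have hα0 : 0 < α := by linarith
  have hαm : α ^ (m - 1) = K := by rw [hα, Real.rpow_inv_natCast_pow hK0.le (by omega)]
  -- a step with a small increment
  obtain ⟨k, hk1, hkm, hk⟩ : ∃ k, 1 ≤ k ∧ k < m ∧ ((S (k + 1)).card : ℝ) ≤ α * (S k).card := by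
    by_contra hcon
    push Not at hcon
    have h1 : ∀ k, 1 ≤ k → k < m → α ^ k * ((S 1).card : ℝ) < (S (k + 1)).card := by
      intro k
      induction k with
      | zero => intro h; omega
      | succ k ih =>
        intro _ hk
        have h2 := hcon (k + 1) (by omega) hk
        rcases Nat.eq_zero_or_pos k with h0 | h0
        · subst h0
          simpa using h2
        · have h3 := ih h0 (by omega)
          calc α ^ (k + 1) * ((S 1).card : ℝ) = α * (α ^ k * (S 1).card) := by ring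
            _ < α * (S (k + 1)).card := mul_lt_mul_of_pos_left h3 hα0
            _ < _ := h2
    have h2 := h1 (m - 1) (by omega) (by omega)
    rw [hαm, show m - 1 + 1 = m by omega] at h2
    have h3 := hSm ⟨0, by omega⟩
    have h4 : S 1 = A ⟨0, by omega⟩ := by
      rw [show (1 : ℕ) = 0 + 1 by rfl, hSsucc]
      have h5 : S 0 = 0 := by rw [hS]; exact sum_range_zero _
      have h6 : A' 0 = A ⟨0, by omega⟩ := hA'i ⟨0, by omega⟩
      rw [h5, h6, zero_add]
    rw [h4] at h2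
    linarith
  have h1 := hk
  rw [hSsucc] at h1
  have h2 := sums_card_le (hSne k) h1 m
  refine ⟨⟨k, hkm⟩, ?_⟩
  have h3 : A' k = A ⟨k, hkm⟩ := hA'i ⟨k, hkm⟩
  rw [h3] at h2
  have h4 : α ^ m ≤ K ^ 2 := by
    calc α ^ m = α ^ (m - 1) * α := by rw [← pow_succ, show m - 1 + 1 = m by omega]
      _ = K * α := by rw [hαm]
      _ ≤ K * K := by
        apply mul_le_mul_of_nonneg_left _ hK0.le
        calc α = α ^ 1 := (pow_one _).symm
          _ ≤ α ^ (m - 1) := pow_le_pow_right₀ hα1 (by omega)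
          _ = K := hαm
      _ = K ^ 2 := by ring
  have h5 : ((S k).card : ℝ) ≤ K * (A ⟨k, hkm⟩).card := by
    refine le_trans ?_ (hSm ⟨k, hkm⟩)
    exact_mod_cast hSmono k hkm.le
  calc ((sums m (A ⟨k, hkm⟩)).card : ℝ) ≤ α ^ m * (S k).card := h2
    _ ≤ K ^ 2 * (K * (A ⟨k, hkm⟩).card) := by gcongr
    _ = _ := by ring

end Pool.Agent.Q130.HE
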