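import Pool.Agent.Q130.HE.Main

/-! # The constants -/

set_option autoImplicit false

namespace Pool.Agent.Q130.HE

theorem log2_lo : 0.69 < Real.log 2 := by have := Real.log_two_gt_d9; linarith
theorem log2_hi : Real.log 2 < 0.6932 := by have := Real.log_two_lt_d9; linarith

theorem log625 : Real.log 625 ≤ 6.5 := by
  have h1 : Real.log ((625 : ℝ) ^ 14) ≤ Real.log ((2 : ℝ) ^ 131) :=
    Real.log_le_log (by norm_num) (by norm_num)
  rw [Real.log_pow, Real.log_pow] at h1
  have h2 := log2_hi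
  push_cast at h1
  linarith

theorem log352 : Real.log 352 ≤ 6 := by
  have h1 : Real.log ((352 : ℝ) ^ 2) ≤ Real.log ((2 : ℝ) ^ 17) :=
    Real.log_le_log (by norm_num) (by norm_num)
  rw [Real.log_pow, Real.log_pow] at h1
  have h2 := log2_hi
  push_cast at h1
  linarith

theorem log_le_J {m : ℕ} (hm : 2 ≤ m) :
    1 ≤ Nat.log 2 m ∧ 2 ^ Nat.log 2 m ≤ m ∧ 0 < Real.log m ∧
      Real.log m ≤ 1.4 * (Nat.log 2 m : ℝ) := by
  have h1 : 1 ≤ Nat.log 2 m := Nat.log_pos (by norm_num) hm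
  have h2 : m < 2 ^ (Nat.log 2 m + 1) := Nat.lt_pow_succ_log_self (by norm_num) m
  refine ⟨h1, Nat.pow_log_le_self 2 (by omega), Real.log_pos (by exact_mod_cast hm), ?_⟩
  have h3 : Real.log m ≤ Real.log ((2 : ℝ) ^ (Nat.log 2 m + 1)) := by
    apply Real.log_le_log
    · exact_mod_cast (by omega : 0 < m)
    · exact_mod_cast h2.le
  rw [Real.log_pow] at h3
  push_cast at h3
  have h4 : (1 : ℝ) ≤ (Nat.log 2 m : ℝ) := by exact_mod_cast h1
  have h5 := log2_hi
  have h6 := log2_lo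
  nlinarith

/-- the final numerical estimates -/
theorem num {K : ℝ} (hK : 1 ≤ K) {m : ℕ} (hm : 2 ≤ m) :
    ∃ (J : ℕ) (K' : ℝ), 1 ≤ J ∧ 1 ≤ K' ∧ K = K' ^ J ∧ 2 ^ J ≤ m ∧
      ∀ d : ℕ, (d : ℝ) ≤ 300 * Real.log (2 * (2 ^ 504 * K' ^ 160)) →
        (d : ℝ) ≤ 110000 * (1 + Real.log K / Real.log m) ∧
        K ^ 2 * (2 ^ 43 * K' ^ 14 * nb (2 ^ 504 * K' ^ 160) * (625 ^ d * (8 * K' * K))) * 625 ^ d ≤
          (2 * K) ^ (10 ^ 8 * (1 + Real.log (1 + Real.log (2 * K)) / Real.log m)) := by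
  obtain ⟨hJ1, hJm, hlm, hlmJ⟩ := log_le_J hm
  obtain ⟨J, hJ⟩ : ∃ J, J = Nat.log 2 m := ⟨_, rfl⟩
  rw [← hJ] at hJ1 hJm hlmJ
  have hK0 : 0 < K := by linarith
  have hJr : (1 : ℝ) ≤ J := by exact_mod_cast hJ1
  have hJ0 : (0 : ℝ) < J := by linarith
  have hK'1 : 1 ≤ K ^ ((J : ℝ)⁻¹) := Real.one_le_rpow hK (by positivity)
  obtain ⟨K', hK'⟩ : ∃ K', K' = K ^ ((J : ℝ)⁻¹) := ⟨_, rfl⟩
  rw [← hK'] at hK'1
  have hK'0 : 0 < K' := by linarith
  refine ⟨J, K', hJ1, hK'1, ?_, hJm, ?_⟩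
  · rw [hK', Real.rpow_inv_natCast_pow hK0.le (by omega)]
  intro d hd
  -- logarithms
  obtain ⟨lam, hlam⟩ : ∃ lam, lam = Real.log K := ⟨_, rfl⟩
  have hlam0 : 0 ≤ lam := by rw [hlam]; exact Real.log_nonneg hK
  obtain ⟨k, hk⟩ : ∃ k, k = Real.log K' := ⟨_, rfl⟩
  have hkJ : k * J = lam := by
    rw [hk, hK', Real.log_rpow hK0, hlam]
    field_simp
  have hk0 : 0 ≤ k := by rw [hk]; exact Real.log_nonneg hK'1
  obtain ⟨L, hL⟩ : ∃ L, L = Real.log (2 * (2 ^ 504 * K' ^ 160)) := ⟨_, rfl⟩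
  have hLeq : L = 505 * Real.log 2 + 160 * k := by
    rw [hL, Real.log_mul (by norm_num) (by positivity), Real.log_mul (by positivity) (by positivity),
      Real.log_pow, Real.log_pow, hk]
    push_cast
    ring
  have hL0 : 0 ≤ L := by
    rw [hLeq]
    have := log2_lo
    positivity
  have hLle : L ≤ 351 + 160 * k := by
    rw [hLeq]
    have := log2_hi
    linarith
  obtain ⟨Λ, hΛ⟩ : ∃ Λ, Λ = Real.log (2 * K) := ⟨_, rfl⟩
  have hΛeq : Λ = Real.log 2 + lam := by
    rw [hΛ, Real.log_mul (by norm_num) hK0.ne', hlam]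
  have hΛlo : 1 ≤ 1.45 * Λ := by
    rw [hΛeq]
    have := log2_lo
    linarith
  have hΛ0 : 0 < Λ := by linarith
  obtain ⟨ℓ, hℓ⟩ : ∃ ℓ, ℓ = Real.log (1 + Λ) := ⟨_, rfl⟩
  have hℓ0 : 0 ≤ ℓ := by rw [hℓ]; exact Real.log_nonneg (by linarith)
  have hℓΛ : ℓ ≤ Λ := by
    rw [hℓ]
    have := Real.log_le_sub_one_of_pos (show 0 < 1 + Λ by linarith)
    linarith
  have hklam : k ≤ lam := by
    have : k * 1 ≤ k * J := mul_le_mul_of_nonneg_left hJr hk0
    linarith
  have hkΛ : k ≤ Λ := by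
    rw [hΛeq]
    have := log2_lo
    linarith
  have hlogL : Real.log (1 + L) ≤ 6 + ℓ := by
    have h1 : 1 + L ≤ 352 * (1 + Λ) := by nlinarith
    have h2 : Real.log (1 + L) ≤ Real.log (352 * (1 + Λ)) := Real.log_le_log (by linarith) h1
    rw [Real.log_mul (by norm_num) (by linarith)] at h2
    have := log352
    linarith
  have hlogL0 : 0 ≤ Real.log (1 + L) := Real.log_nonneg (by linarith)
  -- `1 / J ≤ 1.4 / log m`
  have hkm : k ≤ 1.4 * (lam / Real.log m) := by
    have h1 : k * Real.log m ≤ 1.4 * lam := by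
      calc k * Real.log m ≤ k * (1.4 * J) := mul_le_mul_of_nonneg_left hlmJ hk0
        _ = 1.4 * (k * J) := by ring
        _ = 1.4 * lam := by rw [hkJ]
    rw [← mul_div_assoc, le_div_iff₀ hlm]
    exact h1
  rw [← hL] at hd
  refine ⟨?_, ?_⟩
  · rw [← hlam]
    have h1 : 0 ≤ lam / Real.log m := by positivity
    linarith
  · rw [← hΛ, ← hℓ]
    obtain ⟨q, hq⟩ : ∃ q, q = ℓ / Real.log m := ⟨_, rfl⟩
    rw [← hq]
    have hq0 : 0 ≤ q := by rw [hq]; positivity
    have hkℓ : k * ℓ ≤ 1.4 * (Λ * q) := by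
      have h1 : lam ≤ Λ := by
        rw [hΛeq]
        have := log2_lo
        linarith
      calc k * ℓ ≤ (1.4 * (lam / Real.log m)) * ℓ := mul_le_mul_of_nonneg_right hkm hℓ0
        _ = 1.4 * (lam * q) := by rw [hq]; ring
        _ ≤ 1.4 * (Λ * q) := by gcongr
    have e1 : (2 * K) ^ (10 ^ 8 * (1 + q)) = Real.exp (Λ * (10 ^ 8 * (1 + q))) := by
      rw [Real.rpow_def_of_pos (by linarith), ← hΛ]
    have e2 : nb (2 ^ 504 * K' ^ 160) = Real.exp (L * (13000 * (1 + Real.log (1 + L)))) := by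
      unfold nb
      rw [Real.rpow_def_of_pos (by positivity), ← hL]
    have e3 : K = Real.exp lam := by rw [hlam, Real.exp_log hK0]
    have e4 : K' = Real.exp k := by rw [hk, Real.exp_log hK'0]
    have e5 : (2 : ℝ) ^ 43 ≤ Real.exp 30 := by
      rw [← Real.log_le_iff_le_exp (by norm_num), Real.log_pow]
      have := log2_hi
      push_cast
      linarith
    have e6 : (625 : ℝ) ^ d ≤ Real.exp (6.5 * d) := by
      rw [← Real.log_le_iff_le_exp (by positivity), Real.log_pow]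
      have := log625
      calc (d : ℝ) * Real.log 625 ≤ d * 6.5 := by gcongr
        _ = _ := mul_comm _ _
    have e7 : (8 : ℝ) ≤ Real.exp 2.1 := by
      rw [← Real.log_le_iff_le_exp (by norm_num), show (8 : ℝ) = 2 ^ 3 by norm_num, Real.log_pow]
      have := log2_hi
      push_cast
      linarith
    rw [e1, e2]
    have hK'14 : K' ^ 14 = Real.exp (14 * k) := by
      rw [e4, ← Real.exp_nat_mul]
      norm_num
    have hK2 : K ^ 2 = Real.exp (2 * lam) := by
      rw [e3, ← Real.exp_nat_mul]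
      norm_num
    calc K ^ 2 * (2 ^ 43 * K' ^ 14 * Real.exp (L * (13000 * (1 + Real.log (1 + L)))) *
          (625 ^ d * (8 * K' * K))) * 625 ^ d
        ≤ Real.exp (2 * lam) * (Real.exp 30 * Real.exp (14 * k) *
          Real.exp (L * (13000 * (1 + Real.log (1 + L)))) *
          (Real.exp (6.5 * d) * (Real.exp 2.1 * Real.exp k * Real.exp lam))) *
          Real.exp (6.5 * d) := by
          rw [hK'14, ← e3, ← e4, ← hK2]
          gcongr
      _ = Real.exp (2 * lam + (30 + 14 * k + L * (13000 * (1 + Real.log (1 + L))) +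
          (6.5 * d + (2.1 + k + lam))) + 6.5 * d) := by
          simp only [← Real.exp_add]
      _ ≤ Real.exp (Λ * (10 ^ 8 * (1 + q))) := by
          apply Real.exp_le_exp.2
          have h1 : L * (13000 * (1 + Real.log (1 + L))) ≤
              (351 + 160 * k) * (13000 * (7 + ℓ)) := by
            apply mul_le_mul hLle _ (by positivity) (by positivity)
            linarith
          have h2 : (d : ℝ) ≤ 300 * (351 + 160 * k) := by linarith
          have h3 : lam ≤ Λ := by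
            rw [hΛeq]
            have := log2_lo
            linarith
          have h4 : (351 + 160 * k) * (13000 * (7 + ℓ)) =
              13000 * (2457 + 351 * ℓ + 1120 * k + 160 * (k * ℓ)) := by ring
          have h5 : 0 ≤ Λ * q := by positivity
          calc 2 * lam + (30 + 14 * k + L * (13000 * (1 + Real.log (1 + L))) +
                (6.5 * d + (2.1 + k + lam))) + 6.5 * d
              ≤ 2 * lam + (30 + 14 * k + 13000 * (2457 + 351 * ℓ + 1120 * k + 160 * (k * ℓ)) +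
                (6.5 * (300 * (351 + 160 * k)) + (2.1 + k + lam))) +
                6.5 * (300 * (351 + 160 * k)) := by
                rw [← h4]
                linarith
            _ ≤ Λ * (10 ^ 8 * (1 + q)) := by
                have h6 : Λ * (10 ^ 8 * (1 + q)) = 10 ^ 8 * Λ + 10 ^ 8 * (Λ * q) := by ring
                rw [h6]
                norm_num
                linarith

/-- passing from `K ^ 3` to `K` -/
theorem cube {K : ℝ} (hK : 1 ≤ K) {m : ℕ} (hm : 2 ≤ m) :
    (2 * K ^ 3) ^ ((10 : ℝ) ^ 8 * (1 + Real.log (1 + Real.log (2 * K ^ 3)) / Real.log m)) ≤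
      (2 * K) ^ ((10 : ℝ) ^ 9 * (1 + Real.log (1 + Real.log (2 * K)) / Real.log m)) ∧
    110000 * (1 + Real.log (K ^ 3) / Real.log m) ≤ 330000 * (1 + Real.log K / Real.log m) := by
  have hK0 : 0 < K := by linarith
  obtain ⟨lam, hlam⟩ : ∃ lam, lam = Real.log K := ⟨_, rfl⟩
  have hlam0 : 0 ≤ lam := by rw [hlam]; exact Real.log_nonneg hK
  have hm0 : (2 : ℝ) ≤ m := by exact_mod_cast hm
  have hlm : 0 < Real.log m := Real.log_pos (by linarith)
  have hl2 : Real.log 2 ≤ Real.log m := Real.log_le_log (by norm_num) hm0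
  have h3 : Real.log (K ^ 3) = 3 * lam := by rw [Real.log_pow, hlam]; norm_num
  obtain ⟨Λ, hΛ⟩ : ∃ Λ, Λ = Real.log (2 * K) := ⟨_, rfl⟩
  have hΛeq : Λ = Real.log 2 + lam := by
    rw [hΛ, Real.log_mul (by norm_num) hK0.ne', hlam]
  have hΛ0 : 0 < Λ := by
    rw [hΛeq]; have := log2_lo; linarith
  have hL3 : Real.log (2 * K ^ 3) = Real.log 2 + 3 * lam := by
    rw [Real.log_mul (by norm_num) (by positivity), h3]
  have hL3le : Real.log (2 * K ^ 3) ≤ 3 * Λ := by
    rw [hL3, hΛeq]; have := log2_lo; linarith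
  have hL30 : 0 ≤ Real.log (2 * K ^ 3) := by
    rw [hL3]; have := log2_lo; linarith
  have hlog : Real.log (1 + Real.log (2 * K ^ 3)) ≤ 1.6 * Real.log m + Real.log (1 + Λ) := by
    have h4 : Real.log (1 + Real.log (2 * K ^ 3)) ≤ Real.log (3 * (1 + Λ)) :=
      Real.log_le_log (by linarith) (by linarith)
    have h4' : Real.log (3 * (1 + Λ)) = Real.log 3 + Real.log (1 + Λ) :=
      Real.log_mul (by norm_num) (by linarith)
    rw [h4'] at h4
    have h5 : Real.log ((3 : ℝ) ^ 5) ≤ Real.log ((2 : ℝ) ^ 8) :=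
      Real.log_le_log (by norm_num) (by norm_num)
    rw [Real.log_pow, Real.log_pow] at h5
    push_cast at h5
    linarith
  refine ⟨?_, ?_⟩
  · rw [Real.rpow_def_of_pos (by positivity), Real.rpow_def_of_pos (by positivity), ← hΛ]
    apply Real.exp_le_exp.2
    have h6 : Real.log (1 + Real.log (2 * K ^ 3)) / Real.log m ≤
        1.6 + Real.log (1 + Λ) / Real.log m := by
      rw [div_le_iff₀ hlm]
      calc _ ≤ 1.6 * Real.log m + Real.log (1 + Λ) := hlog
        _ = _ := by field_simp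
    have h7 : 0 ≤ Real.log (1 + Λ) / Real.log m :=
      div_nonneg (Real.log_nonneg (by linarith)) hlm.le
    have h8 : 0 ≤ Real.log (1 + Real.log (2 * K ^ 3)) / Real.log m :=
      div_nonneg (Real.log_nonneg (by linarith)) hlm.le
    obtain ⟨q, hq⟩ : ∃ q, q = Real.log (1 + Λ) / Real.log m := ⟨_, rfl⟩
    rw [← hq] at h6 h7 ⊢
    calc Real.log (2 * K ^ 3) *
          (10 ^ 8 * (1 + Real.log (1 + Real.log (2 * K ^ 3)) / Real.log m))
        ≤ 3 * Λ * (10 ^ 8 * (1 + (1.6 + q))) := by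
          apply mul_le_mul hL3le _ (by positivity) (by positivity)
          gcongr
      _ ≤ Λ * (10 ^ 9 * (1 + q)) := by nlinarith
  · rw [h3, ← hlam]
    have h9 : 0 ≤ lam / Real.log m := by positivity
    have h10 : 3 * lam / Real.log m = 3 * (lam / Real.log m) := by ring
    rw [h10]
    linarith

/-- the exponent for `m ≥ (log 2K) ^ ε` -/
theorem expo_eps {K : ℝ} (hK : 1 ≤ K) {m : ℕ} (hm : 2 ≤ m) {ε : ℝ} (hε : 0 < ε) (hε1 : ε ≤ 1)
    (h : Real.log (2 * K) ^ ε ≤ m) :
    (10 : ℝ) ^ 9 * (1 + Real.log (1 + Real.log (2 * K)) / Real.log m) ≤ 3 * 10 ^ 9 / ε := by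
  have hm0 : (2 : ℝ) ≤ m := by exact_mod_cast hm
  have hlm : 0 < Real.log m := Real.log_pos (by linarith)
  have hl2 : Real.log 2 ≤ Real.log m := Real.log_le_log (by norm_num) hm0
  have hΛ0 : 0 < Real.log (2 * K) := Real.log_pos (by linarith)
  have h1 : Real.log (1 + Real.log (2 * K)) ≤ Real.log m + Real.log m / ε := by
    by_cases hcase : Real.log (2 * K) ≤ 1
    · have h2 : Real.log (1 + Real.log (2 * K)) ≤ Real.log 2 :=
        Real.log_le_log (by linarith) (by linarith)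
      have h3 : 0 ≤ Real.log m / ε := by positivity
      linarith
    · push Not at hcase
      have h2 : Real.log (1 + Real.log (2 * K)) ≤ Real.log (2 * Real.log (2 * K)) :=
        Real.log_le_log (by linarith) (by linarith)
      rw [Real.log_mul (by norm_num) hΛ0.ne'] at h2
      have h3 : Real.log (Real.log (2 * K)) ≤ Real.log m / ε := by
        rw [le_div_iff₀ hε]
        have h4 := Real.log_le_log (by positivity) h
        rw [Real.log_rpow hΛ0] at h4
        linarith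
      linarith
  have h2 : Real.log (1 + Real.log (2 * K)) / Real.log m ≤ 1 + 1 / ε := by
    rw [div_le_iff₀ hlm]
    calc _ ≤ Real.log m + Real.log m / ε := h1
      _ = _ := by ring
  have h3 : 1 ≤ 1 / ε := by rw [le_div_iff₀ hε]; linarith
  calc (10 : ℝ) ^ 9 * (1 + Real.log (1 + Real.log (2 * K)) / Real.log m)
      ≤ 10 ^ 9 * (1 + (1 + 1 / ε)) := by gcongr
    _ ≤ 10 ^ 9 * (3 * (1 / ε)) := by gcongr; linarith
    _ = 3 * 10 ^ 9 / ε := by ring

end Pool.Agent.Q130.HE
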