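import Pool.Agent.H217R3.AK.Bsg

/-! # A weighted form of the Balog-Szemerédi-Gowers theorem -/

set_option autoImplicit false

namespace Pool.Agent.Q130.HE

open Finset
open scoped Pointwise

variable {G : Type*} [AddCommGroup G] [DecidableEq G]

/-- the sum of a nonnegative function over a translate -/
theorem sum_shift_le (F S : Finset G) (g : G → ℝ) (hg : ∀ x, 0 ≤ g x)
    (hF : ∀ x, x ∉ F → g x = 0) (x : G) :
    ∑ s ∈ S, g (s - x) ≤ ∑ y ∈ F, g y := by
  have h1 : ∑ s ∈ S, g (s - x) = ∑ y ∈ S.image (fun s => s - x), g y := by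
    rw [sum_image]
    intro a _ b _ h
    exact sub_left_injective h
  have h2 : ∑ y ∈ F, g y = ∑ y ∈ S.image (fun s => s - x) ∪ F, g y := by
    apply sum_subset subset_union_right
    intro y _ hy
    exact hF y hy
  rw [h1, h2]
  exact sum_le_sum_of_subset_of_nonneg subset_union_left (fun i _ _ => hg i)

theorem sum_shift_le' (F S : Finset G) (g : G → ℝ) (hg : ∀ x, 0 ≤ g x)
    (hF : ∀ x, x ∉ F → g x = 0) (s : G) :
    ∑ x ∈ S, g (s - x) ≤ ∑ y ∈ F, g y := by
  have h1 : ∑ x ∈ S, g (s - x) = ∑ y ∈ S.image (fun x => s - x), g y := by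
    rw [sum_image]
    intro a _ b _ h
    exact sub_right_injective h
  have h2 : ∑ y ∈ F, g y = ∑ y ∈ S.image (fun x => s - x) ∪ F, g y := by
    apply sum_subset subset_union_right
    intro y _ hy
    exact hF y hy
  rw [h1, h2]
  exact sum_le_sum_of_subset_of_nonneg subset_union_left (fun i _ _ => hg i)

theorem sum_swap (F : Finset G) (s : G) (f : G → G → ℝ)
    (hf : ∀ x, x ∉ F → ∀ y, f x y = 0) (hf' : ∀ x, x ∉ F → ∀ y, f y x = 0) :
    ∑ x ∈ F, f x (s - x) = ∑ x ∈ F, f (s - x) x := by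
  have h1 : ∑ x ∈ F, f x (s - x) = ∑ x ∈ F.filter (fun x => s - x ∈ F), f x (s - x) := by
    symm
    apply sum_subset (filter_subset _ _)
    intro x hx hx2
    apply hf'
    intro h
    exact hx2 (mem_filter.2 ⟨hx, h⟩)
  have h2 : ∑ x ∈ F, f (s - x) x = ∑ x ∈ F.filter (fun x => s - x ∈ F), f (s - x) x := by
    symm
    apply sum_subset (filter_subset _ _)
    intro x hx hx2
    apply hf
    intro h
    exact hx2 (mem_filter.2 ⟨hx, h⟩)
  rw [h1, h2]
  refine sum_nbij' (fun x => s - x) (fun x => s - x) ?_ ?_ ?_ ?_ ?_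
  · intro x hx
    rw [mem_filter] at hx ⊢
    refine ⟨hx.2, ?_⟩
    rw [sub_sub_cancel]
    exact hx.1
  · intro x hx
    rw [mem_filter] at hx ⊢
    refine ⟨hx.2, ?_⟩
    rw [sub_sub_cancel]
    exact hx.1
  · intro x _
    exact sub_sub_cancel _ _
  · intro x _
    exact sub_sub_cancel _ _
  · intro x _
    rw [sub_sub_cancel]

/-- convolution square -/
noncomputable def cv (F : Finset G) (w : G → ℝ) (s : G) : ℝ := ∑ x ∈ F, w x * w (s - x)

section
variable {F : Finset G} {w : G → ℝ} (hw : ∀ x, 0 ≤ w x) (hF : ∀ x, x ∉ F → w x = 0)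
  (h1 : ∑ x ∈ F, w x = 1)

omit [DecidableEq G] in
include hw in
theorem cv_nonneg (s : G) : 0 ≤ cv F w s :=
  sum_nonneg fun x _ => mul_nonneg (hw x) (hw _)

include hw hF h1 in
theorem cv_sum_le (S : Finset G) : ∑ s ∈ S, cv F w s ≤ 1 := by
  unfold cv
  rw [sum_comm]
  calc ∑ x ∈ F, ∑ s ∈ S, w x * w (s - x) ≤ ∑ x ∈ F, w x * 1 := by
        apply sum_le_sum
        intro x _
        rw [← mul_sum]
        apply mul_le_mul_of_nonneg_left _ (hw x)
        rw [← h1]
        exact sum_shift_le F S w hw hF x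
    _ = 1 := by rw [← sum_mul, h1, one_mul]

include hw hF h1 in
theorem cv_sq_le (S : Finset G) : ∑ s ∈ S, cv F w s ^ 2 ≤ ∑ x ∈ F, w x ^ 2 := by
  have h2 : ∀ s, cv F w s ^ 2 ≤ ∑ x ∈ F, w x * w (s - x) ^ 2 := by
    intro s
    have h3 := sum_mul_sq_le_sq_mul_sq F (fun x => √(w x)) (fun x => √(w x) * w (s - x))
    have h4 : ∑ x ∈ F, √(w x) * (√(w x) * w (s - x)) = cv F w s := by
      unfold cv
      apply sum_congr rfl
      intro x _
      rw [← mul_assoc, Real.mul_self_sqrt (hw x)]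
    have h5 : ∑ x ∈ F, √(w x) ^ 2 = 1 := by
      rw [← h1]
      apply sum_congr rfl
      intro x _
      exact Real.sq_sqrt (hw x)
    have h6 : ∑ x ∈ F, (√(w x) * w (s - x)) ^ 2 = ∑ x ∈ F, w x * w (s - x) ^ 2 := by
      apply sum_congr rfl
      intro x _
      rw [mul_pow, Real.sq_sqrt (hw x)]
    rw [h4, h5, h6, one_mul] at h3
    exact h3
  calc ∑ s ∈ S, cv F w s ^ 2 ≤ ∑ s ∈ S, ∑ x ∈ F, w x * w (s - x) ^ 2 := sum_le_sum fun s _ => h2 s
    _ = ∑ x ∈ F, ∑ s ∈ S, w x * w (s - x) ^ 2 := sum_comm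
    _ ≤ ∑ x ∈ F, w x * (∑ y ∈ F, w y ^ 2) := by
        apply sum_le_sum
        intro x _
        rw [← mul_sum]
        apply mul_le_mul_of_nonneg_left _ (hw x)
        exact sum_shift_le F S (fun y => w y ^ 2) (fun y => sq_nonneg _)
          (fun y hy => by simp [hF y hy]) x
    _ = ∑ x ∈ F, w x ^ 2 := by rw [← sum_mul, h1, one_mul]

include hw hF h1 in
theorem cv_shift_le (S : Finset G) (x : G) :
    ∑ s ∈ S, cv F w s * w (s - x) ≤ ∑ x ∈ F, w x ^ 2 := by
  have h3 := sum_mul_sq_le_sq_mul_sq S (cv F w) (fun s => w (s - x))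
  have h4 : ∑ s ∈ S, w (s - x) ^ 2 ≤ ∑ x ∈ F, w x ^ 2 :=
    sum_shift_le F S (fun y => w y ^ 2) (fun y => sq_nonneg _) (fun y hy => by simp [hF y hy]) x
  have h5 := cv_sq_le hw hF h1 S
  have h6 : 0 ≤ ∑ x ∈ F, w x ^ 2 := sum_nonneg fun x _ => sq_nonneg _
  apply le_of_sq_le_sq _ h6
  calc (∑ s ∈ S, cv F w s * w (s - x)) ^ 2 ≤ (∑ s ∈ S, cv F w s ^ 2) * ∑ s ∈ S, w (s - x) ^ 2 := h3
    _ ≤ (∑ x ∈ F, w x ^ 2) * ∑ x ∈ F, w x ^ 2 := by
        apply mul_le_mul h5 h4 (sum_nonneg fun x _ => sq_nonneg _) h6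
    _ = _ := by ring

end

/-- numerical end of the proof -/
theorem wbsg_num {M K t E S B P : ℝ} (hM : 0 < M) (hK : 1 ≤ K) (ht : t = 8 * K)
    (hE : 1 ≤ 4 * K * t ^ 4 * M ^ 3 * E) (hES : E ≤ S ^ 3) (hS0 : 0 ≤ S)
    (hB : S ≤ 8 * (4 * K * t ^ 7) * B) (hP : B * M ≤ t * P) :
    1 ≤ 2 ^ 43 * K ^ 14 * P := by
  have hK0 : 0 < K := by linarith
  have ht0 : 0 < t := by rw [ht]; linarith
  have ht1 : 1 ≤ t := by rw [ht]; linarith
  obtain ⟨u, hu⟩ : ∃ u, u = S * M := ⟨_, rfl⟩
  have hu0 : 0 ≤ u := by rw [hu]; positivity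
  have h1 : 1 ≤ 4 * K * t ^ 4 * u ^ 3 := by
    calc 1 ≤ 4 * K * t ^ 4 * M ^ 3 * E := hE
      _ ≤ 4 * K * t ^ 4 * M ^ 3 * S ^ 3 := by
        apply mul_le_mul_of_nonneg_left hES (by positivity)
      _ = 4 * K * t ^ 4 * u ^ 3 := by rw [hu]; ring
  have h2 : 1 ≤ 4 * K * t ^ 4 * u := by
    by_cases hu1 : 1 ≤ u
    · have h3 : 1 ≤ 4 * K * t ^ 4 := by
        have : 1 ≤ t ^ 4 := one_le_pow₀ ht1
        nlinarith
      nlinarith
    · push Not at hu1
      have h3 : u ^ 3 ≤ u := by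
        have : u ^ 2 ≤ 1 := by nlinarith
        nlinarith
      calc 1 ≤ 4 * K * t ^ 4 * u ^ 3 := h1
        _ ≤ 4 * K * t ^ 4 * u := mul_le_mul_of_nonneg_left h3 (by positivity)
  have h3 : u ≤ 8 * (4 * K * t ^ 7) * (t * P) := by
    calc u = S * M := hu
      _ ≤ 8 * (4 * K * t ^ 7) * B * M := mul_le_mul_of_nonneg_right hB hM.le
      _ = 8 * (4 * K * t ^ 7) * (B * M) := by ring
      _ ≤ 8 * (4 * K * t ^ 7) * (t * P) := mul_le_mul_of_nonneg_left hP (by positivity)
  calc 1 ≤ 4 * K * t ^ 4 * u := h2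
    _ ≤ 4 * K * t ^ 4 * (8 * (4 * K * t ^ 7) * (t * P)) :=
      mul_le_mul_of_nonneg_left h3 (by positivity)
    _ = 2 ^ 43 * K ^ 14 * P := by rw [ht]; ring

theorem add_card_le {B : Finset G} (hB : B.Nonempty) {Q : ℝ}
    (h : ((B - B).card : ℝ) ≤ Q * B.card) : ((B + B).card : ℝ) ≤ Q ^ 2 * B.card := by
  have hb : (0 : ℝ) < B.card := by exact_mod_cast hB.card_pos
  have h1 := pluennecke_ruzsa_inequality_nsmul_sub hB B 2
  have h2 : (((2 • B).card : ℚ≥0) : ℝ) ≤ ((((B - B).card : ℚ≥0) / (B.card : ℚ≥0)) ^ 2 * (B.card : ℚ≥0) : ℚ≥0) := by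
    exact_mod_cast h1
  rw [two_nsmul] at h2
  push_cast at h2
  refine h2.trans ?_
  apply mul_le_mul_of_nonneg_right _ hb.le
  apply pow_le_pow_left₀ (by positivity)
  rw [div_le_iff₀ hb]
  exact h

/-- **Weighted Balog-Szemerédi-Gowers theorem.** -/
theorem wbsg (F : Finset G) (w : G → ℝ) (hw : ∀ x, 0 ≤ w x) (hF : ∀ x, x ∉ F → w x = 0)
    (h1 : ∑ x ∈ F, w x = 1) (K : ℝ) (hK : 1 ≤ K)
    (hRM : ∑ x ∈ F, w x ^ 2 ≤ K * ∑ s ∈ F + F, cv F w s ^ 2) :
    ∃ B : Finset G, B.Nonempty ∧ (B.card : ℝ) * (∑ x ∈ F, w x ^ 2) ≤ 8 * K ∧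
      ((B + B).card : ℝ) ≤ 2 ^ 504 * K ^ 160 * B.card ∧
      1 ≤ 2 ^ 43 * K ^ 14 * ∑ x ∈ B, w x := by
  classical
  obtain ⟨M, hM⟩ : ∃ M, M = ∑ x ∈ F, w x ^ 2 := ⟨_, rfl⟩
  obtain ⟨R, hR⟩ : ∃ R, R = ∑ s ∈ F + F, cv F w s ^ 2 := ⟨_, rfl⟩
  rw [← hM, ← hR] at hRM
  rw [← hM]
  have hK0 : 0 < K := by linarith
  have hM0 : 0 < M := by
    rw [hM]
    by_contra hcon
    have h2 : ∀ x ∈ F, w x ^ 2 = 0 := by
      have h3 : ∑ x ∈ F, w x ^ 2 = 0 :=
        le_antisymm (not_lt.1 hcon) (sum_nonneg fun x _ => sq_nonneg _)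
      exact (sum_eq_zero_iff_of_nonneg fun x _ => sq_nonneg _).1 h3
    have h3 : ∑ x ∈ F, w x = 0 := sum_eq_zero fun x hx => by
      have := h2 x hx
      exact pow_eq_zero_iff (two_ne_zero) |>.1 this
    rw [h1] at h3
    exact one_ne_zero h3
  have hR0 : 0 < R := by
    by_contra hcon
    have : K * R ≤ 0 := mul_nonpos_of_nonneg_of_nonpos hK0.le (not_lt.1 hcon)
    linarith
  obtain ⟨t, ht⟩ : ∃ t, t = 8 * K := ⟨_, rfl⟩
  have ht0 : 0 < t := by rw [ht]; linarith
  obtain ⟨S, hS⟩ : ∃ S, S = F.filter (fun x => M ≤ t * w x ∧ w x ≤ t * M) := ⟨_, rfl⟩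
  have hSm : ∀ x, x ∈ S ↔ x ∈ F ∧ M ≤ t * w x ∧ w x ≤ t * M := by
    intro x; rw [hS, mem_filter]
  -- the part outside `S`
  obtain ⟨b, hb⟩ : ∃ b : G → ℝ, b = fun s => ∑ x ∈ F, (if x ∈ S then 0 else w x) * w (s - x) :=
    ⟨_, rfl⟩
  obtain ⟨rm, hrm⟩ : ∃ rm : G → ℝ, rm = fun s => ∑ x ∈ F, if x ∈ S ∧ s - x ∈ S then
    w x * w (s - x) else 0 := ⟨_, rfl⟩
  have hb0 : ∀ s, 0 ≤ b s := by
    intro s
    rw [hb]
    apply sum_nonneg
    intro x _
    apply mul_nonneg _ (hw _)
    split_ifs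
    · exact le_rfl
    · exact hw x
  have hsplit : ∀ s, cv F w s ≤ rm s + 2 * b s := by
    intro s
    have h2 : ∑ x ∈ F, w x * (if s - x ∈ S then 0 else w (s - x)) = b s := by
      have := sum_swap F s (fun x y => w x * (if y ∈ S then 0 else w y))
        (fun x hx y => by simp [hF x hx])
        (fun x hx y => by simp [hF x hx])
      rw [this, hb]
      apply sum_congr rfl
      intro x _
      rw [mul_comm]
    have h3 : rm s + 2 * b s = ∑ x ∈ F, ((if x ∈ S ∧ s - x ∈ S then w x * w (s - x) else 0) +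
        ((if x ∈ S then 0 else w x) * w (s - x) + w x * (if s - x ∈ S then 0 else w (s - x)))) := by
      rw [sum_add_distrib, sum_add_distrib, h2, hrm, hb]
      ring
    rw [h3]
    unfold cv
    apply sum_le_sum
    intro x _
    have h4 := mul_nonneg (hw x) (hw (s - x))
    by_cases hx : x ∈ S <;> by_cases hy : s - x ∈ S <;> simp [hx, hy]
    exact h4
  -- the bad part is small
  have hsmallpart : ∑ s ∈ F + F, cv F w s * b s ≤ 2 * M / t := by
    have h2 : ∀ s, b s ≤ ∑ x ∈ F, M / t * w (s - x) +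
        ∑ x ∈ F.filter (fun x => t * M < w x), w x * w (s - x) := by
      intro s
      rw [sum_filter, ← sum_add_distrib, hb]
      apply sum_le_sum
      intro x hx
      have h4 := hw (s - x)
      by_cases hxS : x ∈ S
      · rw [if_pos hxS, zero_mul]
        have : 0 ≤ w x * w (s - x) := mul_nonneg (hw x) h4
        split_ifs <;> positivity
      · rw [if_neg hxS]
        by_cases hbig : t * M < w x
        · rw [if_pos hbig]
          have : 0 ≤ M / t * w (s - x) := by positivity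
          linarith
        · rw [if_neg hbig, add_zero]
          apply mul_le_mul_of_nonneg_right _ h4
          rw [le_div_iff₀ ht0]
          by_contra hcon
          apply hxS
          rw [hSm]
          exact ⟨hx, by linarith, by linarith⟩
    have h3 : ∑ s ∈ F + F, cv F w s * (∑ x ∈ F, M / t * w (s - x)) ≤ M / t := by
      calc ∑ s ∈ F + F, cv F w s * (∑ x ∈ F, M / t * w (s - x))
          ≤ ∑ s ∈ F + F, cv F w s * (M / t) := by
            apply sum_le_sum
            intro s _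
            apply mul_le_mul_of_nonneg_left _ (cv_nonneg hw s)
            rw [← mul_sum]
            have := sum_shift_le' F F w hw hF s
            rw [h1] at this
            calc M / t * ∑ x ∈ F, w (s - x) ≤ M / t * 1 :=
                  mul_le_mul_of_nonneg_left this (by positivity)
              _ = M / t := mul_one _
        _ ≤ 1 * (M / t) := by
            rw [← sum_mul]
            exact mul_le_mul_of_nonneg_right (cv_sum_le hw hF h1 _) (by positivity)
        _ = M / t := one_mul _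
    have h4 : ∑ s ∈ F + F, cv F w s * (∑ x ∈ F.filter (fun x => t * M < w x), w x * w (s - x))
        ≤ M / t := by
      have h5 : ∑ s ∈ F + F, cv F w s * (∑ x ∈ F.filter (fun x => t * M < w x), w x * w (s - x)) =
          ∑ x ∈ F.filter (fun x => t * M < w x), w x * ∑ s ∈ F + F, cv F w s * w (s - x) := by
        simp only [mul_sum]
        rw [sum_comm]
        apply sum_congr rfl
        intro x _
        apply sum_congr rfl
        intro s _
        ring
      have h6 : ∑ x ∈ F.filter (fun x => t * M < w x), w x ≤ 1 / t := by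
        have h7 : (t * M) * ∑ x ∈ F.filter (fun x => t * M < w x), w x ≤ M := by
          rw [mul_sum]
          calc ∑ x ∈ F.filter (fun x => t * M < w x), t * M * w x
              ≤ ∑ x ∈ F.filter (fun x => t * M < w x), w x ^ 2 := by
                apply sum_le_sum
                intro x hx
                rw [mem_filter] at hx
                rw [sq]
                exact mul_le_mul_of_nonneg_right hx.2.le (hw x)
            _ ≤ ∑ x ∈ F, w x ^ 2 :=
                sum_le_sum_of_subset_of_nonneg (filter_subset _ _) (fun x _ _ => sq_nonneg _)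
            _ = M := hM.symm
        rw [le_div_iff₀ ht0]
        have h8 : M * ((∑ x ∈ F.filter (fun x => t * M < w x), w x) * t) ≤ M * 1 := by
          linarith
        exact le_of_mul_le_mul_left h8 hM0
      rw [h5]
      calc ∑ x ∈ F.filter (fun x => t * M < w x), w x * ∑ s ∈ F + F, cv F w s * w (s - x)
          ≤ ∑ x ∈ F.filter (fun x => t * M < w x), w x * M := by
            apply sum_le_sum
            intro x _
            apply mul_le_mul_of_nonneg_left _ (hw x)
            rw [hM]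
            exact cv_shift_le hw hF h1 _ x
        _ ≤ 1 / t * M := by
            rw [← sum_mul]
            exact mul_le_mul_of_nonneg_right h6 hM0.le
        _ = M / t := by ring
    calc ∑ s ∈ F + F, cv F w s * b s ≤ ∑ s ∈ F + F, cv F w s * (∑ x ∈ F, M / t * w (s - x) +
        ∑ x ∈ F.filter (fun x => t * M < w x), w x * w (s - x)) := by
          apply sum_le_sum
          intro s _
          exact mul_le_mul_of_nonneg_left (h2 s) (cv_nonneg hw s)
      _ = ∑ s ∈ F + F, cv F w s * (∑ x ∈ F, M / t * w (s - x)) +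
          ∑ s ∈ F + F, cv F w s *
            (∑ x ∈ F.filter (fun x => t * M < w x), w x * w (s - x)) := by
          rw [← sum_add_distrib]
          apply sum_congr rfl
          intro s _
          ring
      _ ≤ M / t + M / t := add_le_add h3 h4
      _ = 2 * M / t := by ring
  have hhalf : R / 2 ≤ ∑ s ∈ F + F, cv F w s * rm s := by
    have h2 : R ≤ ∑ s ∈ F + F, cv F w s * rm s + 2 * ∑ s ∈ F + F, cv F w s * b s := by
      rw [hR, mul_sum, ← sum_add_distrib]
      apply sum_le_sum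
      intro s _
      have h3 := mul_le_mul_of_nonneg_left (hsplit s) (cv_nonneg (F := F) hw s)
      calc cv F w s ^ 2 = cv F w s * cv F w s := sq _
        _ ≤ cv F w s * (rm s + 2 * b s) := h3
        _ = _ := by ring
    have h3 : 2 * (2 * M / t) ≤ R / 2 := by
      rw [ht]
      rw [show 2 * (2 * M / (8 * K)) = M / (2 * K) by field_simp; norm_num]
      rw [div_le_div_iff₀ (by positivity) (by norm_num)]
      nlinarith
    linarith
  have hquart : R / 4 ≤ ∑ s ∈ F + F, rm s ^ 2 := by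
    have h2 := sum_mul_sq_le_sq_mul_sq (F + F) (cv F w) rm
    rw [← hR] at h2
    have h3 : (R / 2) ^ 2 ≤ (∑ s ∈ F + F, cv F w s * rm s) ^ 2 :=
      pow_le_pow_left₀ (by positivity) hhalf 2
    have h4 : R * (R / 4) ≤ R * ∑ s ∈ F + F, rm s ^ 2 := by
      calc R * (R / 4) = (R / 2) ^ 2 := by ring
        _ ≤ _ := h3.trans h2
    exact le_of_mul_le_mul_left h4 hR0
  -- additive energy of `S`
  have hSF : S ⊆ F := by rw [hS]; exact filter_subset _ _
  have hrmle : ∀ s, rm s ≤ (t * M) ^ 2 * (((S ×ˢ S).filter fun p => p.1 + p.2 = s).card : ℝ) := by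
    intro s
    have h2 : rm s ≤ ∑ x ∈ S.filter (fun x => s - x ∈ S), (t * M) ^ 2 := by
      rw [hrm]
      simp only
      rw [← sum_filter]
      have h3 : F.filter (fun x => x ∈ S ∧ s - x ∈ S) = S.filter (fun x => s - x ∈ S) := by
        ext x
        simp only [mem_filter]
        constructor
        · rintro ⟨_, h⟩; exact h
        · rintro ⟨h, h'⟩; exact ⟨hSF h, h, h'⟩
      rw [h3]
      apply sum_le_sum
      intro x hx
      rw [mem_filter] at hx
      have h4 := ((hSm x).1 hx.1).2.2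
      have h5 := ((hSm _).1 hx.2).2.2
      calc w x * w (s - x) ≤ (t * M) * (t * M) :=
            mul_le_mul h4 h5 (hw _) (by positivity)
        _ = _ := by ring
    have h3 : (S.filter (fun x => s - x ∈ S)).card = ((S ×ˢ S).filter fun p => p.1 + p.2 = s).card := by
      apply card_nbij' (fun x => (x, s - x)) (fun p => p.1)
      · intro x hx
        simp only [coe_filter, Set.mem_ofPred_eq, mem_product] at hx ⊢
        exact ⟨⟨hx.1, hx.2⟩, by abel⟩
      · rintro ⟨x, y⟩ hx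
        simp only [coe_filter, Set.mem_ofPred_eq, mem_product] at hx ⊢
        refine ⟨hx.1.1, ?_⟩
        have : s - x = y := by rw [← hx.2]; abel
        rw [this]
        exact hx.1.2
      · intro x _; rfl
      · rintro ⟨x, y⟩ hx
        simp only [coe_filter, Set.mem_ofPred_eq, mem_product] at hx
        have : s - x = y := by rw [← hx.2]; abel
        simp [this]
    rw [sum_const, nsmul_eq_mul, mul_comm, h3] at h2
    exact h2
  have hrm0 : ∀ s, 0 ≤ rm s := by
    intro s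
    rw [hrm]
    apply sum_nonneg
    intro x _
    split_ifs
    · exact mul_nonneg (hw _) (hw _)
    · exact le_rfl
  have hE : R / 4 ≤ (t * M) ^ 4 * (S.addEnergy S : ℕ) := by
    refine hquart.trans ?_
    rw [Finset.addEnergy_eq_sum_sq']
    have h2 : ∑ s ∈ F + F, rm s ^ 2 ≤
        ∑ s ∈ S + S, ((t * M) ^ 4 * (((S ×ˢ S).filter fun p => p.1 + p.2 = s).card : ℝ) ^ 2) := by
      have h3 : ∑ s ∈ F + F, rm s ^ 2 ≤
          ∑ s ∈ F + F, ((t * M) ^ 4 * (((S ×ˢ S).filter fun p => p.1 + p.2 = s).card : ℝ) ^ 2) := by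
        apply sum_le_sum
        intro s _
        calc rm s ^ 2 ≤ ((t * M) ^ 2 * (((S ×ˢ S).filter fun p => p.1 + p.2 = s).card : ℝ)) ^ 2 :=
              pow_le_pow_left₀ (hrm0 s) (hrmle s) 2
          _ = _ := by ring
      refine h3.trans (le_of_eq ?_)
      symm
      apply sum_subset (add_subset_add hSF hSF)
      intro s _ hs
      have : (S ×ˢ S).filter (fun p => p.1 + p.2 = s) = ∅ := by
        rw [filter_eq_empty_iff]
        rintro ⟨x, y⟩ hxy h
        rw [mem_product] at hxy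
        exact hs (h ▸ add_mem_add hxy.1 hxy.2)
      rw [this]
      simp
    refine h2.trans (le_of_eq ?_)
    rw [← mul_sum]
    push_cast
    rfl
  have hE0 : (S.addEnergy S : ℝ) ≤ (S.card : ℝ) ^ 3 := by
    rw [Finset.addEnergy_eq_sum_sq']
    have hsum : ∑ s ∈ S + S, ((S ×ˢ S).filter fun p => p.1 + p.2 = s).card = S.card ^ 2 := by
      have h2 := card_eq_sum_card_fiberwise (f := fun p : G × G => p.1 + p.2)
        (s := S ×ˢ S) (t := S + S) (fun p hp => by
          rw [mem_coe, mem_product] at hp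
          exact add_mem_add hp.1 hp.2)
      rw [card_product] at h2
      rw [sq]
      exact h2.symm
    have hle : ∀ s, ((S ×ˢ S).filter fun p => p.1 + p.2 = s).card ≤ S.card := by
      intro s
      apply card_le_card_of_injOn (fun p => p.1)
      · rintro ⟨x, y⟩ hx
        simp only [coe_filter, Set.mem_ofPred_eq, mem_product] at hx
        exact hx.1.1
      · rintro ⟨x, y⟩ hx ⟨x', y'⟩ hx' h
        simp only [coe_filter, Set.mem_ofPred_eq, mem_product] at hx hx' h
        subst h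
        have h2 := hx.2.trans hx'.2.symm
        rw [add_left_cancel h2]
    have : ∑ s ∈ S + S, ((S ×ˢ S).filter fun p => p.1 + p.2 = s).card ^ 2 ≤ S.card ^ 3 := by
      calc ∑ s ∈ S + S, ((S ×ˢ S).filter fun p => p.1 + p.2 = s).card ^ 2
          ≤ ∑ s ∈ S + S, S.card * ((S ×ˢ S).filter fun p => p.1 + p.2 = s).card := by
            apply sum_le_sum
            intro s _
            rw [sq]
            exact Nat.mul_le_mul_right _ (hle s)
        _ = S.card ^ 3 := by rw [← mul_sum, hsum]; ring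
    exact_mod_cast this
  have hSM : (S.card : ℝ) * M ≤ t := by
    have h2 : ∑ x ∈ S, M ≤ ∑ x ∈ F, t * w x := by
      calc ∑ x ∈ S, M ≤ ∑ x ∈ S, t * w x := sum_le_sum fun x hx => ((hSm x).1 hx).2.1
        _ ≤ ∑ x ∈ F, t * w x :=
          sum_le_sum_of_subset_of_nonneg hSF (fun x _ _ => mul_nonneg ht0.le (hw x))
    rw [sum_const, nsmul_eq_mul, ← mul_sum, h1, mul_one] at h2
    exact h2
  have hE1 : 1 ≤ 4 * K * t ^ 4 * M ^ 3 * (S.addEnergy S : ℕ) := by
    have h2 : M / (4 * K) ≤ (t * M) ^ 4 * (S.addEnergy S : ℕ) := by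
      refine le_trans ?_ hE
      rw [div_le_div_iff₀ (by positivity) (by norm_num)]
      nlinarith
    rw [div_le_iff₀ (by positivity)] at h2
    have h3 : M * 1 ≤ M * (4 * K * t ^ 4 * M ^ 3 * (S.addEnergy S : ℕ)) := by
      calc M * 1 = M := mul_one _
        _ ≤ _ := h2
        _ = _ := by ring
    exact le_of_mul_le_mul_left h3 hM0
  have hSne : S.Nonempty := by
    rw [nonempty_iff_ne_empty]
    intro h
    rw [h] at hE1
    simp at hE1
    linarith
  have hbsg : (S.card : ℝ) ^ 3 ≤ (4 * K * t ^ 7) * (S.addEnergy S : ℕ) := by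
    have h2 : ((S.card : ℝ) * M) ^ 3 ≤ t ^ 3 := pow_le_pow_left₀ (by positivity) hSM 3
    have h3 : M ^ 3 * (S.card : ℝ) ^ 3 ≤ M ^ 3 * ((4 * K * t ^ 7) * (S.addEnergy S : ℕ)) := by
      calc M ^ 3 * (S.card : ℝ) ^ 3 = ((S.card : ℝ) * M) ^ 3 := by ring
        _ ≤ t ^ 3 := h2
        _ = t ^ 3 * 1 := (mul_one _).symm
        _ ≤ t ^ 3 * (4 * K * t ^ 4 * M ^ 3 * (S.addEnergy S : ℕ)) :=
          mul_le_mul_of_nonneg_left hE1 (by positivity)
        _ = _ := by ring
    exact le_of_mul_le_mul_left h3 (by positivity)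
  obtain ⟨B, hBS, hBne, hB1, hB2⟩ := Pool.Agent.H217R3.AK.bsg S hSne (4 * K * t ^ 7)
    (by positivity) hbsg
  have hBS' : (B.card : ℝ) ≤ S.card := by exact_mod_cast card_le_card hBS
  refine ⟨B, hBne, ?_, ?_, ?_⟩
  · calc (B.card : ℝ) * M ≤ S.card * M := mul_le_mul_of_nonneg_right hBS' hM0.le
      _ ≤ t := hSM
      _ = 8 * K := ht
  · have h2 := add_card_le hBne hB2
    refine h2.trans (le_of_eq ?_)
    have e1 : (2 : ℝ) ^ 22 * (4 * K * t ^ 7) ^ 10 = 2 ^ 252 * K ^ 80 := by rw [ht]; ring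
    rw [e1, mul_pow, ← pow_mul, ← pow_mul]
  · apply wbsg_num (M := M) (E := (S.addEnergy S : ℕ)) (S := S.card) (B := B.card)
      hM0 hK ht hE1 hE0 (by positivity) hB1
    have h2 : ∑ x ∈ B, M ≤ ∑ x ∈ B, t * w x := sum_le_sum fun x hx => ((hSm x).1 (hBS hx)).2.1
    rw [sum_const, nsmul_eq_mul, ← mul_sum] at h2
    exact h2

end Pool.Agent.Q130.HE
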